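import Pool.Agent.K7.H47.DM.Stm

/-!
# Project DM, job SYMSIM (helper99)
-/

set_option autoImplicit false

open Polynomial

namespace Pool.Agent.K7.H99.DM

open Pool.Agent.K7.H47.DM

theorem sim1 {x y : ℂ} (h : Sim ![0, 1, x] ![0, 1, y]) : Tr x y := by
  intro P hP
  set n := P.natDegree with hn
  have hM : (fun (i : Fin 3) (j : Fin (n + 1)) =>
      (derivative^[(j : ℕ)] P).eval ((![0, 1, x] : Fin 3 → ℂ) i) = 0) ∈ Dn n ![0, 1, x] :=
    ⟨P, degree_eq_natDegree hP, fun i j => Iff.rfl⟩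
  rw [h n] at hM
  obtain ⟨Q, hQd, hQ⟩ := hM
  have hQ0 : Q ≠ 0 := by
    rintro rfl
    rw [degree_zero] at hQd
    exact absurd hQd (by simp)
  have hQn : Q.natDegree = n := natDegree_eq_of_degree_eq_some hQd
  refine ⟨Q, hQ0, hQn, ?_⟩
  intro j
  rcases Nat.lt_or_ge n j with hj | hj
  · have e1 : derivative^[j] P = 0 := iterate_derivative_eq_zero hj
    have e2 : derivative^[j] Q = 0 := iterate_derivative_eq_zero (by rw [hQn]; exact hj)
    rw [e1, e2]
    simp
  · have h0 := hQ 0 ⟨j, by omega⟩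
    have h1 := hQ 1 ⟨j, by omega⟩
    have h2 := hQ 2 ⟨j, by omega⟩
    exact ⟨h0, h1, h2⟩

theorem sim : StSim := by
  intro x y h
  exact ⟨sim1 h, sim1 (fun n => (h n).symm)⟩

/-- derivatives of a composition with a linear polynomial -/
theorem iter_comp (P : ℂ[X]) (a b : ℂ) (j : ℕ) :
    derivative^[j] (P.comp (C a * X + C b)) = C (a ^ j) * (derivative^[j] P).comp (C a * X + C b) := by
  induction j with
  | zero => simp
  | succ j ih =>
    rw [Function.iterate_succ_apply', Function.iterate_succ_apply', ih, derivative_mul,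
      derivative_C, zero_mul, zero_add, derivative_comp]
    simp only [derivative_add, derivative_mul, derivative_C, derivative_X, zero_mul, zero_add,
      mul_one, add_zero]
    rw [pow_succ, C_mul]
    ring

theorem eval_comp' (P : ℂ[X]) {a : ℂ} (ha : a ≠ 0) (b z : ℂ) (j : ℕ) :
    (derivative^[j] (P.comp (C a * X + C b))).eval z = 0 ↔
      (derivative^[j] P).eval (a * z + b) = 0 := by
  rw [iter_comp, eval_mul, eval_C, eval_comp]
  simp only [eval_add, eval_mul, eval_C, eval_X, mul_eq_zero, pow_eq_zero_iff', ne_eq, ha,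
    false_and, false_or]

theorem nd (P : ℂ[X]) {a : ℂ} (ha : a ≠ 0) (b : ℂ) :
    (P.comp (C a * X + C b)).natDegree = P.natDegree := by
  rw [natDegree_comp, natDegree_linear ha, mul_one]

theorem nz {P : ℂ[X]} (hP : P ≠ 0) {a : ℂ} (ha : a ≠ 0) (b : ℂ) : P.comp (C a * X + C b) ≠ 0 := by
  intro h
  have h1 : (P.comp (C a * X + C b)).comp (C a⁻¹ * X + C (-(a⁻¹ * b))) = P := by
    rw [comp_assoc]
    have : (C a * X + C b).comp (C a⁻¹ * X + C (-(a⁻¹ * b))) = X := by
      simp only [add_comp, mul_comp, C_comp, X_comp]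
      rw [mul_add, ← mul_assoc, ← C_mul, ← C_mul, mul_inv_cancel₀ ha, add_assoc, ← C_add]
      have : a * -(a⁻¹ * b) + b = 0 := by
        rw [mul_neg, ← mul_assoc, mul_inv_cancel₀ ha]; ring
      rw [this]
      simp
    rw [this, comp_X]
  rw [h, zero_comp] at h1
  exact hP h1.symm

theorem sym : StSym := by
  intro x y hx hy h
  have hxi : x⁻¹ ≠ 0 := inv_ne_zero hx
  constructor
  · intro P hP
    obtain ⟨Q, hQ0, hQn, hQ⟩ := h (P.comp (C x⁻¹ * X + C 0)) (nz hP hxi 0)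
    refine ⟨Q.comp (C y * X + C 0), nz hQ0 hy 0, by rw [nd _ hy, hQn, nd _ hxi], ?_⟩
    intro j
    obtain ⟨h0, h1, h2⟩ := hQ j
    rw [eval_comp' P hxi] at h0 h1 h2
    rw [eval_comp' Q hy, eval_comp' Q hy, eval_comp' Q hy]
    simp only [mul_zero, add_zero, mul_one] at h0 h1 h2 ⊢
    rw [inv_mul_cancel₀ hx] at h2
    rw [mul_inv_cancel₀ hy]
    exact ⟨h0, h2, h1⟩
  · intro P hP
    have hm : (-1 : ℂ) ≠ 0 := by norm_num
    obtain ⟨Q, hQ0, hQn, hQ⟩ := h (P.comp (C (-1) * X + C 1)) (nz hP hm 1)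
    refine ⟨Q.comp (C (-1) * X + C 1), nz hQ0 hm 1, by rw [nd _ hm, hQn, nd _ hm], ?_⟩
    intro j
    obtain ⟨h0, h1, h2⟩ := hQ j
    rw [eval_comp' P hm] at h0 h1 h2
    rw [eval_comp' Q hm, eval_comp' Q hm, eval_comp' Q hm]
    have e0 : (-1 : ℂ) * 0 + 1 = 1 := by norm_num
    have e1 : (-1 : ℂ) * 1 + 1 = 0 := by norm_num
    have e2 : (-1 : ℂ) * x + 1 = 1 - x := by ring
    have e3 : (-1 : ℂ) * (1 - y) + 1 = y := by ring
    rw [e0] at h0
    rw [e1] at h1
    rw [e2] at h2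
    rw [e0, e1, e3]
    exact ⟨h1, h0, h2⟩

end Pool.Agent.K7.H99.DM
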