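import Pool.Agent.K7.H14.CF.Stm

/-!
# Project CF, job COL: a 3-colouring gives an additive map (helper99)
-/

set_option autoImplicit false

namespace Pool.Agent.K7.H99.CF

open Pool.Agent.Results.MP_8b8716_co.ThreeValue Pool.Agent.K7.H14.CF

set_option maxRecDepth 100000 in
theorem shift0 : ∀ a b c a' b' c' : Fin 3, (a ≠ b ∧ b ≠ c ∧ c ≠ a ∧ a' ≠ b' ∧ b' ≠ c' ∧ c' ≠ a' ∧
    a' ≠ a ∧ b' ≠ b ∧ c' ≠ c) → b' - a' = b - a := by decide

theorem shift (a b c a' b' c' : ZMod 3) (h1 : a ≠ b) (h2 : b ≠ c) (h3 : c ≠ a) (h4 : a' ≠ b')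
    (h5 : b' ≠ c') (h6 : c' ≠ a') (h7 : a' ≠ a) (h8 : b' ≠ b) (h9 : c' ≠ c) : b' - a' = b - a :=
  shift0 a b c a' b' c' ⟨h1, h2, h3, h4, h5, h6, h7, h8, h9⟩

theorem third0 : ∀ a b c d : Fin 3, (a ≠ b ∧ b ≠ c ∧ a ≠ c ∧ d ≠ b ∧ d ≠ c) → d = a := by decide

theorem third (a b c d : ZMod 3) (h1 : a ≠ b) (h2 : b ≠ c) (h3 : a ≠ c) (h4 : d ≠ b) (h5 : d ≠ c) :
    d = a := third0 a b c d ⟨h1, h2, h3, h4, h5⟩

theorem col : StCol := by
  rintro F ⟨s, hs⟩ ⟨c⟩
  let col : F × F → ZMod 3 := fun p => c p
  have hne : ∀ (p e : F × F), e ∈ Unit2 F → col (p + e) ≠ col p := by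
    intro p e he
    apply c.valid
    show ((p + e).1 - p.1) ^ 2 + ((p + e).2 - p.2) ^ 2 = 1
    have he' : e.1 ^ 2 + e.2 ^ 2 = 1 := he
    simpa using he'
  -- the rotation by 120 degrees
  let R : F × F → F × F := fun e => (-(e.1 / 2) - s * e.2 / 2, s * e.1 / 2 - e.2 / 2)
  have hR : ∀ e, e ∈ Unit2 F → R e ∈ Unit2 F := by
    intro e he
    have he' : e.1 ^ 2 + e.2 ^ 2 = 1 := he
    show (-(e.1 / 2) - s * e.2 / 2) ^ 2 + (s * e.1 / 2 - e.2 / 2) ^ 2 = 1
    linear_combination he' + (e.1 ^ 2 + e.2 ^ 2) / 4 * hs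
  have hR3 : ∀ e, e + R e + R (R e) = 0 := by
    intro e
    apply Prod.ext
    · show e.1 + (-(e.1 / 2) - s * e.2 / 2) +
        (-((-(e.1 / 2) - s * e.2 / 2) / 2) - s * (s * e.1 / 2 - e.2 / 2) / 2) = 0
      linear_combination (-e.1 / 4) * hs
    · show e.2 + (s * e.1 / 2 - e.2 / 2) +
        (s * (-(e.1 / 2) - s * e.2 / 2) / 2 - (s * e.1 / 2 - e.2 / 2) / 2) = 0
      linear_combination (-e.2 / 4) * hs
  have hneg : ∀ e, e ∈ Unit2 F → -e ∈ Unit2 F := by
    intro e he
    have he' : e.1 ^ 2 + e.2 ^ 2 = 1 := he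
    show (-e.1) ^ 2 + (-e.2) ^ 2 = 1
    linear_combination he'
  have hR4 : ∀ e, R (R (R e)) = e := by
    intro e
    have h1 := hR3 e
    have h2 := hR3 (R e)
    have : R (R (R e)) = e + ((R e + R (R e) + R (R (R e))) - (e + R e + R (R e))) := by abel
    rw [this, h1, h2]
    simp
  -- invariance under `e - R R e`
  have P1 : ∀ (x e : F × F), e ∈ Unit2 F → col (x + (e - R (R e))) = col x := by
    intro x e he
    have hw := hneg _ (hR _ (hR _ he))
    have hv := hneg _ (hR _ he)
    have h1 : col x ≠ col (x + e) := (hne x e he).symm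
    have h2 : col (x + e) ≠ col (x - R (R e)) := by
      have := hne (x - R (R e)) (- R e) hv
      have e1 : x - R (R e) + - R e = x + e := by
        have h := hR3 e
        have : x - R (R e) + - R e = x + e - (e + R e + R (R e)) := by abel
        rw [this, h, sub_zero]
      rwa [e1] at this
    have h3 : col x ≠ col (x - R (R e)) := by
      have := hne x (- R (R e)) hw
      rw [← sub_eq_add_neg] at this
      exact this.symm
    have h4 : col (x + (e - R (R e))) ≠ col (x + e) := by
      have := hne (x + e) (- R (R e)) hw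
      have e1 : x + e + - R (R e) = x + (e - R (R e)) := by abel
      rwa [e1] at this
    have h5 : col (x + (e - R (R e))) ≠ col (x - R (R e)) := by
      have := hne (x - R (R e)) e he
      have e1 : x - R (R e) + e = x + (e - R (R e)) := by abel
      rwa [e1] at this
    exact third _ _ _ _ h1 h2 h3 h4 h5
  have P2 : ∀ (x e : F × F), e ∈ Unit2 F → col (x + e + e + e) = col x := by
    intro x e he
    have h1 := P1 (x + (e - R e)) e he
    have h2 := P1 (x + (e - R e)) (R e) (hR e he)
    rw [hR4] at h2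
    have e1 : x + (e - R e) + (R e - e) = x := by abel
    rw [e1] at h2
    have e2 : x + (e - R e) + (e - R (R e)) = x + e + e + e := by
      have h := hR3 e
      have : x + (e - R e) + (e - R (R e)) = x + e + e + e - (e + R e + R (R e)) := by abel
      rw [this, h, sub_zero]
    rw [e2] at h1
    rw [h1, ← h2]
  have D1 : ∀ (x e f : F × F), e ∈ Unit2 F → f ∈ Unit2 F →
      col (x + f + e) - col (x + f) = col (x + e) - col x := by
    intro x e f he hf
    have row : ∀ x : F × F, col x ≠ col (x + e) ∧ col (x + e) ≠ col (x + e + e) ∧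
        col (x + e + e) ≠ col x := by
      intro x
      refine ⟨(hne x e he).symm, (hne (x + e) e he).symm, ?_⟩
      have := hne (x + e + e) e he
      rw [P2 x e he] at this
      exact this.symm
    obtain ⟨a1, a2, a3⟩ := row x
    obtain ⟨b1, b2, b3⟩ := row (x + f)
    refine shift _ _ _ _ _ _ a1 a2 a3 b1 b2 b3 (hne x f hf) ?_ ?_
    · have := hne (x + e) f hf
      have e1 : x + e + f = x + f + e := by abel
      rwa [e1] at this
    · have := hne (x + e + e) f hf
      have e1 : x + e + e + f = x + f + e + e := by abel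
      rwa [e1] at this
  have D2 : ∀ (e : F × F), e ∈ Unit2 F → ∀ g ∈ AddSubgroup.closure (Unit2 F), ∀ x : F × F,
      col (x + g + e) - col (x + g) = col (x + e) - col x := by
    intro e he g hg
    induction hg using AddSubgroup.closure_induction with
    | mem f hf => intro x; exact D1 x e f he hf
    | zero => intro x; simp
    | add g h _ _ ihg ihh =>
      intro x
      have h1 := ihh (x + g)
      have h2 := ihg x
      have e1 : x + (g + h) = x + g + h := by abel
      rw [e1, h1, h2]
    | neg g _ ih =>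
      intro x
      have h1 := ih (x + -g)
      have e1 : x + -g + g = x := by abel
      rw [e1] at h1
      exact h1.symm
  have D3 : ∀ h ∈ AddSubgroup.closure (Unit2 F), ∀ g ∈ AddSubgroup.closure (Unit2 F), ∀ x : F × F,
      col (x + g + h) - col (x + g) = col (x + h) - col x := by
    intro h hh
    induction hh using AddSubgroup.closure_induction with
    | mem f hf => intro g hg x; exact D2 f hf g hg x
    | zero => intro g hg x; simp
    | add h1 h2 _ _ ih1 ih2 =>
      intro g hg x
      have k1 := ih1 g hg x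
      have k2 := ih2 g hg (x + h1)
      have e1 : x + g + (h1 + h2) = x + h1 + g + h2 := by abel
      have e2 : x + (h1 + h2) = x + h1 + h2 := by abel
      have e3 : x + h1 + g = x + g + h1 := by abel
      rw [e1, e2]
      rw [← e3] at k1
      linear_combination k1 + k2
    | neg h _ ih =>
      intro g hg x
      have k1 := ih g hg (x + -h)
      have e1 : x + -h + g + h = x + g := by abel
      have e2 : x + -h + h = x := by abel
      have e3 : x + -h + g = x + g + -h := by abel
      rw [e1, e2, e3] at k1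
      linear_combination (-1) * k1
  refine ⟨AddMonoidHom.mk' (fun g => col (g : F × F) - col 0) ?_, ?_⟩
  · intro g h
    have := D3 h h.2 g g.2 0
    simp only [zero_add] at this
    rw [AddSubgroup.coe_add]
    linear_combination this
  · intro e he
    show col (e : F × F) - col 0 ≠ 0
    rw [sub_ne_zero]
    have := hne 0 e he
    rwa [zero_add] at this

end Pool.Agent.K7.H99.CF
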