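import Mathlib

/-!
# Project CF: two lemmas (helper99)
-/

set_option autoImplicit false

namespace Pool.Agent.K7.H99.CF

/-- In characteristic three a root of a primitive integer polynomial generates a finite ring. -/
theorem closure_finite {B : Type*} [CommRing B] (h3 : (3 : B) = 0) (t : B) (f : Polynomial ℤ)
    (hf : f.IsPrimitive) (hft : Polynomial.aeval t f = 0) :
    ((Subring.closure {t} : Subring B) : Set B).Finite := by
  rcases subsingleton_or_nontrivial B with hB | hB
  · exact Set.toFinite _
  haveI : Fact (Nat.Prime 3) := ⟨Nat.prime_three⟩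
  haveI : CharP B 3 := (CharP.charP_iff_prime_eq_zero Nat.prime_three).2 (by exact_mod_cast h3)
  letI := ZMod.algebra B 3
  set g : Polynomial (ZMod 3) := f.map (Int.castRingHom (ZMod 3)) with hg
  have hg0 : g ≠ 0 := by
    intro h
    have h1 : Polynomial.C (3 : ℤ) ∣ f := by
      rw [Polynomial.C_dvd_iff_dvd_coeff]
      intro i
      have h2 := congrArg (fun p => Polynomial.coeff p i) h
      simp only [hg, Polynomial.coeff_map, Polynomial.coeff_zero, eq_intCast] at h2
      exact (ZMod.intCast_zmod_eq_zero_iff_dvd _ 3).1 h2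
    have h2 := hf _ h1
    rw [Int.isUnit_iff] at h2
    omega
  have hgt : Polynomial.aeval t g = 0 := by
    rw [hg, Polynomial.aeval_def, Polynomial.eval₂_map]
    rw [Polynomial.aeval_def] at hft
    have e : (algebraMap (ZMod 3) B).comp (Int.castRingHom (ZMod 3)) = algebraMap ℤ B :=
      RingHom.ext_int _ _
    rw [e]
    exact hft
  have hint : IsIntegral (ZMod 3) t := by
    have : IsAlgebraic (ZMod 3) t := ⟨g, hg0, hgt⟩
    exact this.isIntegral
  haveI : Module.Finite (ZMod 3) (Algebra.adjoin (ZMod 3) {t}) :=
    Algebra.finite_adjoin_simple_of_isIntegral hint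
  haveI : Finite (Algebra.adjoin (ZMod 3) {t}) := Module.finite_of_finite (ZMod 3)
  have hle : ((Subring.closure {t} : Subring B) : Set B) ⊆ (Algebra.adjoin (ZMod 3) {t} : Set B) := by
    have : (Subring.closure {t} : Subring B) ≤ (Algebra.adjoin (ZMod 3) {t}).toSubring := by
      rw [Subring.closure_le]
      intro x hx
      exact Algebra.subset_adjoin hx
    exact this
  exact (Set.toFinite _).subset hle

theorem exists_primitive {C : Type*} [Field C] [CharZero C] (x : C) (hx : IsAlgebraic ℤ x) :
    ∃ f : Polynomial ℤ, f.IsPrimitive ∧ Polynomial.aeval x f = 0 := by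
  obtain ⟨p, hp0, hp⟩ := hx
  exact ⟨p.primPart, p.isPrimitive_primPart, Polynomial.aeval_primPart_eq_zero hp0 hp⟩

end Pool.Agent.K7.H99.CF
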