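import Pool.Agent.K7.H14.CF.Stm

/-!
# Project CF, job FOUR: a 4-colouring (helper99; the valuation ring as in the starting file)
-/

set_option autoImplicit false

namespace Pool.Agent.K7.H99.CF

open Pool.Agent.Results.MP_8b8716_co.ThreeValue Pool.Agent.K7.H14.CF

theorem four : StFour := by
  rintro F hF ⟨s, hs⟩ ⟨φ⟩
  let A : Subring F := (integralClosure ℤ F).toSubring
  let ψ : A →+* ZMod 2 := φ
  have htop : RingHom.ker ψ ≠ ⊤ := RingHom.ker_ne_top ψ
  obtain ⟨W, hAW, hKW⟩ := Ideal.image_subset_nonunits_valuationSubring (RingHom.ker ψ) htop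
  have hker : ∀ x : A, ψ x = 0 → W.valuation (x : F) < 1 := fun x hx =>
    W.mem_nonunits_iff.mp (hKW ⟨x, hx, rfl⟩)
  have h2 : W.valuation ((2 : ℕ) : F) < 1 := by
    have h := hker ((2 : ℕ) : A) (by rw [map_natCast]; rfl)
    have e : (((2 : ℕ) : A) : F) = ((2 : ℕ) : F) := by push_cast; rfl
    rwa [e] at h
  have halg : ∀ x : F, IsAlgebraic ℤ x := fun x =>
    (IsFractionRing.isAlgebraic_iff ℤ ℚ F).mpr (hF.isAlgebraic x)
  have hres : ∀ x ∈ W, ∃ r : ZMod 2, W.valuation (x - (r.val : F)) < 1 := by
    intro x hx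
    obtain ⟨s, -, hs, hsv, hsx⟩ := clear_den W Nat.prime_two h2 ⊤ (Subfield.mem_top x) hx (halg x)
    have hφs : ψ ⟨s, hs⟩ ≠ 0 := by
      intro h
      have := hker _ h
      simp [hsv] at this
    refine ⟨ψ ⟨s * x, hsx⟩ * (ψ ⟨s, hs⟩)⁻¹, ?_⟩
    set r := ψ ⟨s * x, hsx⟩ * (ψ ⟨s, hs⟩)⁻¹ with hr
    have h4 : ψ (⟨s * x, hsx⟩ - (r.val : A) * ⟨s, hs⟩) = 0 := by
      have hfact : Fact (Nat.Prime 2) := ⟨Nat.prime_two⟩
      rw [map_sub, map_mul, map_natCast, ZMod.natCast_zmod_val, hr, mul_assoc, inv_mul_cancel₀ hφs,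
        mul_one, sub_self]
    have h5 := hker _ h4
    have h6 : (((⟨s * x, hsx⟩ - (r.val : A) * ⟨s, hs⟩ : A)) : F) = s * (x - (r.val : F)) := by
      push_cast
      ring
    rw [h6, map_mul, hsv, one_mul] at h5
    exact h5
  have hsq : ∀ x ∈ W, ¬ W.valuation (x ^ 2 - x + 1) < 1 := by
    intro x hx hlt
    obtain ⟨r, hr⟩ := hres x hx
    have h4 : W.valuation ((x - (r.val : F)) * (x + (r.val : F) - 1)) < 1 := by
      rw [map_mul]
      have h7 : W.valuation (x + (r.val : F) - 1) ≤ 1 :=
        (W.valuation_le_one_iff _).mpr (sub_mem (add_mem hx (natCast_mem _ _)) (one_mem _))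
      calc W.valuation (x - (r.val : F)) * W.valuation (x + (r.val : F) - 1) ≤
          W.valuation (x - (r.val : F)) * 1 := by gcongr
        _ < 1 := by simpa using hr
    have hr2 : (r.val : F) ^ 2 - (r.val : F) = 0 := by
      have hlt : r.val < 2 := ZMod.val_lt r
      interval_cases r.val <;> simp
    have h5 : W.valuation (1 : F) < 1 := by
      have e : (1 : F) = (x ^ 2 - x + 1) - ((x - (r.val : F)) * (x + (r.val : F) - 1)) := by
        linear_combination (-1) * hr2
      rw [e]
      exact Valuation.map_sub_lt _ hlt h4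
    rw [map_one] at h5
    exact lt_irrefl _ h5
  have hmem : ∀ x y : F, x ^ 2 - x * y + y ^ 2 = 1 → x ∈ W := by
    intro x y hxy
    by_contra hcon
    have hinv : x⁻¹ ∈ W := (W.mem_or_inv_mem _).resolve_left hcon
    have hx0 : x ≠ 0 := by rintro rfl; exact hcon (zero_mem W)
    have hinv1 : W.valuation x⁻¹ < 1 := by
      rw [← W.mem_nonunits_iff, W.inv_mem_nonunits_iff]
      exact Or.inr hcon
    have ht : (y / x) ^ 2 - y / x + 1 = x⁻¹ * x⁻¹ := by
      field_simp
      linear_combination hxy
    have htW : y / x ∈ W := by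
      have h5 : 1 - x⁻¹ * x⁻¹ ∈ W := sub_mem (one_mem _) (mul_mem hinv hinv)
      refine mem_of_quad W (one_mem _) h5 ?_
      linear_combination ht
    apply hsq _ htW
    rw [ht, map_mul]
    calc W.valuation x⁻¹ * W.valuation x⁻¹ ≤ W.valuation x⁻¹ * 1 := by gcongr
      _ < 1 := by simpa using hinv1
  let WA : AddSubgroup F := W.toSubring.toAddSubgroup
  have hWA : ∀ x, x ∈ WA ↔ x ∈ W := fun x => Iff.rfl
  let rep : F → F := fun x => Quotient.out (QuotientAddGroup.mk x : F ⧸ WA)
  have hrep : ∀ x, x - rep x ∈ W := by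
    intro x
    have h : (QuotientAddGroup.mk (rep x) : F ⧸ WA) = QuotientAddGroup.mk x := Quotient.out_eq _
    have h' := QuotientAddGroup.eq.mp h
    rw [hWA] at h'
    have e : x - rep x = -rep x + x := by ring
    rw [e]; exact h'
  have hrepeq : ∀ x x', x - x' ∈ W → rep x = rep x' := by
    intro x x' hx
    have : (QuotientAddGroup.mk x : F ⧸ WA) = QuotientAddGroup.mk x' := by
      rw [QuotientAddGroup.eq, hWA]
      have e : -x + x' = -(x - x') := by ring
      rw [e]; exact neg_mem hx
    simp only [rep, this]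
  choose! res hres' using hres
  have hs0 : s ≠ 0 := by rintro rfl; norm_num at hs
  let al : F × F → F := fun p => p.1 + p.2 / s
  let be : F × F → F := fun p => 2 * p.2 / s
  have hcol : ∀ p q : F × F, (unitDistGraph F).Adj p q →
      ((res (al p - rep (al p)), res (be p - rep (be p))) : ZMod 2 × ZMod 2) ≠
        (res (al q - rep (al q)), res (be q - rep (be q))) := by
    intro p q hpq heq
    rw [Prod.mk.injEq] at heq
    obtain ⟨ha, hb⟩ := heq
    have hadj : (p.1 - q.1) ^ 2 + (p.2 - q.2) ^ 2 = 1 := hpq
    have hab : (al p - al q) ^ 2 - (al p - al q) * (be p - be q) + (be p - be q) ^ 2 = 1 := by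
      have e : (al p - al q) ^ 2 - (al p - al q) * (be p - be q) + (be p - be q) ^ 2 =
          (p.1 - q.1) ^ 2 + 3 * ((p.2 - q.2) / s) ^ 2 := by
        simp only [al, be]; ring
      rw [e, div_pow, hs]
      linear_combination hadj
    have hx : al p - al q ∈ W := hmem _ _ hab
    have hy : be p - be q ∈ W := hmem _ (al p - al q) (by linear_combination hab)
    have e1 := hrepeq _ _ hx
    have e2 := hrepeq _ _ hy
    have v1 := hres' _ (hrep (al p))
    have v2 := hres' _ (hrep (be p))
    have v3 := hres' _ (hrep (al q))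
    have v4 := hres' _ (hrep (be q))
    have v5 : W.valuation (al p - al q) < 1 := by
      have e : al p - al q = (al p - rep (al p) - ((res (al p - rep (al p))).val : F)) -
          (al q - rep (al q) - ((res (al q - rep (al q))).val : F)) := by
        rw [ha, e1]; ring
      rw [e]
      exact Valuation.map_sub_lt _ v1 v3
    have v6 : W.valuation (be p - be q) < 1 := by
      have e : be p - be q = (be p - rep (be p) - ((res (be p - rep (be p))).val : F)) -
          (be q - rep (be q) - ((res (be q - rep (be q))).val : F)) := by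
        rw [hb, e2]; ring
      rw [e]
      exact Valuation.map_sub_lt _ v2 v4
    have v7 : W.valuation (1 : F) < 1 := by
      have e : (1 : F) = (al p - al q) * ((al p - al q) - (be p - be q)) +
          (be p - be q) * (be p - be q) := by
        linear_combination (-1) * hab
      rw [e]
      apply Valuation.map_add_lt
      · rw [map_mul]
        have h7 : W.valuation ((al p - al q) - (be p - be q)) ≤ 1 :=
          (W.valuation_le_one_iff _).mpr (sub_mem hx hy)
        calc W.valuation (al p - al q) * W.valuation ((al p - al q) - (be p - be q)) ≤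
            W.valuation (al p - al q) * 1 := by gcongr
          _ < 1 := by simpa using v5
      · rw [map_mul]
        have h7 : W.valuation (be p - be q) ≤ 1 := (W.valuation_le_one_iff _).mpr hy
        calc W.valuation (be p - be q) * W.valuation (be p - be q) ≤
            W.valuation (be p - be q) * 1 := by gcongr
          _ < 1 := by simpa using v6
    rw [map_one] at v7
    exact lt_irrefl _ v7
  have hc := (SimpleGraph.Coloring.mk (fun p : F × F =>
    ((res (al p - rep (al p)), res (be p - rep (be p))) : ZMod 2 × ZMod 2))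
    (fun {p q} h => hcol p q h)).colorable
  simpa using hc

end Pool.Agent.K7.H99.CF
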