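import Pool.Agent.K7.H72.IP.Stm

/-! # Project IP, job K2 (helper99) -/

set_option autoImplicit false

open SimpleGraph

namespace Pool.Agent.K7.H99.IPK2

open Pool.Agent.K7.H72.IP

theorem t : StK2 := by
  refine ⟨fun _ => 0, fun t _ n _ G hG _ => ?_⟩
  have h0 : G.edgeSet = ∅ := by
    rw [Set.eq_empty_iff_forall_notMem]
    intro e he
    induction e using Sym2.ind with
    | _ a b =>
      rw [mem_edgeSet] at he
      apply hG.false
      refine ⟨⟨![a, b], ?_⟩, ?_⟩
      · intro i j hij
        have hab := he.ne
        fin_cases i <;> fin_cases j <;> simp_all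
      · intro i j
        have hab := he
        have hba := he.symm
        show G.Adj (![a, b] i) (![a, b] j) ↔ (⊤ : SimpleGraph (Fin 2)).Adj i j
        fin_cases i <;> fin_cases j <;> simp [hab, hba]
  rw [h0]
  simp

end Pool.Agent.K7.H99.IPK2
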