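import Pool.Agent.K7.H72.IP.Stm

/-! # Project IP, job RAND (helper99) -/

set_option autoImplicit false

open SimpleGraph

namespace Pool.Agent.K7.H99.IPRAND

open Pool.Agent.K7.H72.IP

theorem t : StRand := by
  classical
  intro n T G P hP
  set E : Finset (Sym2 (Fin n)) := Finset.univ.filter (fun e => e ∈ G.edgeSet) with hE
  set SR : Finset (Fin n) → Finset (Fin n) :=
    fun R => Finset.univ.filter (fun v => v ∈ R ∧ ∀ u ∈ R, u ≠ v → u ∉ P v) with hSR
  have hEc : G.edgeSet.ncard = E.card := by
    rw [Set.ncard_eq_toFinset_card']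
    congr 1
    ext e
    simp [hE]
  have hin : ∀ S : Finset (Fin n), eIn G S = (E.filter fun e => ∀ x ∈ e, x ∈ S).card := by
    intro S
    unfold eIn
    rw [Set.ncard_eq_toFinset_card']
    congr 1
    ext e
    simp [hE]
  obtain ⟨R, -, hR⟩ := Finset.exists_max_image (Finset.univ : Finset (Finset (Fin n)))
    (fun R => eIn G (SR R)) ⟨∅, Finset.mem_univ _⟩
  refine ⟨SR R, ?_, ?_⟩
  · intro v hv u hu huv
    simp only [hSR, Finset.mem_filter, Finset.mem_univ, true_and] at hv hu
    exact hv.2 u hu.1 huv
  set good : Sym2 (Fin n) → Prop := fun e => ∀ x ∈ e, ∀ y ∈ e, x ≠ y → x ∉ P y with hgood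
  -- bad edges
  have hbad : (E.filter fun e => ¬ good e).card ≤ T * n := by
    have hsub : (E.filter fun e => ¬ good e) ⊆
        (Finset.univ.sigma P).image (fun p : (Σ _ : Fin n, Fin n) => s(p.1, p.2)) := by
      intro e he
      rw [Finset.mem_filter] at he
      obtain ⟨-, hb⟩ := he
      simp only [hgood, not_forall] at hb
      obtain ⟨x, hx, y, hy, hxy, hP'⟩ := hb
      rw [not_not] at hP'
      rw [Finset.mem_image]
      refine ⟨⟨y, x⟩, by simp [hP'], ?_⟩
      exact ((Sym2.mem_and_mem_iff (Ne.symm hxy)).1 ⟨hy, hx⟩).symm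
    calc (E.filter fun e => ¬ good e).card ≤ _ := Finset.card_le_card hsub
      _ ≤ (Finset.univ.sigma P).card := Finset.card_image_le
      _ = ∑ v, (P v).card := by rw [Finset.card_sigma]
      _ ≤ ∑ _v : Fin n, T := Finset.sum_le_sum fun v _ => hP v
      _ = T * n := by simp [mul_comm]
  -- good edges
  have hcnt : ∀ e ∈ E.filter (fun e => good e),
      2 ^ n ≤ 4 ^ (T + 1) * ((Finset.univ : Finset (Finset (Fin n))).filter fun R => ∀ x ∈ e, x ∈ SR R).card := by
    intro e he
    rw [Finset.mem_filter] at he
    obtain ⟨heE, hg⟩ := he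
    have heG : e ∈ G.edgeSet := by simpa [hE] using heE
    induction e using Sym2.ind with
    | _ a b =>
      rw [mem_edgeSet] at heG
      have hab := heG.ne
      set F : Finset (Fin n) := {a, b} ∪ (P a ∪ P b) with hF
      have hFc : F.card ≤ 2 * (T + 1) := by
        calc F.card ≤ ({a, b} : Finset (Fin n)).card + (P a ∪ P b).card := Finset.card_union_le _ _
          _ ≤ 2 + ((P a).card + (P b).card) := add_le_add Finset.card_le_two (Finset.card_union_le _ _)
          _ ≤ 2 * (T + 1) := by have := hP a; have := hP b; omega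
      have hFn : F.card ≤ n := by simpa using Finset.card_le_univ F
      have hsub : ((Finset.univ \ F).powerset).image (fun R' => R' ∪ {a, b}) ⊆
          ((Finset.univ : Finset (Finset (Fin n))).filter fun R => ∀ x ∈ s(a, b), x ∈ SR R) := by
        intro R₁ hR₁
        rw [Finset.mem_image] at hR₁
        obtain ⟨R', hR', rfl⟩ := hR₁
        rw [Finset.mem_powerset] at hR'
        have hn : ∀ u ∈ R', u ≠ a ∧ u ≠ b ∧ u ∉ P a ∧ u ∉ P b := by
          intro u hu
          have := hR' hu
          rw [Finset.mem_sdiff] at this
          have h2 := this.2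
          rw [hF] at h2
          simp only [Finset.mem_union, Finset.mem_insert, Finset.mem_singleton, not_or] at h2
          exact ⟨h2.1.1, h2.1.2, h2.2.1, h2.2.2⟩
        have gab : a ∉ P b := hg a (Sym2.mem_mk_left a b) b (Sym2.mem_mk_right a b) hab
        have gba : b ∉ P a := hg b (Sym2.mem_mk_right a b) a (Sym2.mem_mk_left a b) hab.symm
        rw [Finset.mem_filter]
        refine ⟨Finset.mem_univ _, ?_⟩
        intro x hx
        rw [Sym2.mem_iff] at hx
        simp only [hSR, Finset.mem_filter, Finset.mem_univ, true_and, Finset.mem_union, Finset.mem_insert,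
          Finset.mem_singleton]
        rcases hx with rfl | rfl
        · refine ⟨by simp, ?_⟩
          rintro u (hu | rfl | rfl) hux
          · exact (hn u hu).2.2.1
          · exact absurd rfl hux
          · exact gba
        · refine ⟨by simp, ?_⟩
          rintro u (hu | rfl | rfl) hux
          · exact (hn u hu).2.2.2
          · exact gab
          · exact absurd rfl hux
      have hinj : Set.InjOn (fun R' : Finset (Fin n) => R' ∪ {a, b}) ((Finset.univ \ F).powerset : Set (Finset (Fin n))) := by
        intro R₁ h1 R₂ h2 h12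
        simp only at h12
        have key : ∀ R' : Finset (Fin n), R' ⊆ Finset.univ \ F → (R' ∪ {a, b}) \ {a, b} = R' := by
          intro R' hR'
          ext u
          simp only [Finset.mem_sdiff, Finset.mem_union, Finset.mem_insert, Finset.mem_singleton]
          constructor
          · rintro ⟨h | h, h'⟩
            · exact h
            · exact absurd h h'
          · intro hu
            refine ⟨Or.inl hu, ?_⟩
            have := hR' hu
            rw [Finset.mem_sdiff] at this
            have h2 := this.2
            rw [hF] at h2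
            simp only [Finset.mem_union, Finset.mem_insert, Finset.mem_singleton, not_or] at h2
            rintro (rfl | rfl)
            · exact h2.1.1 rfl
            · exact h2.1.2 rfl
        have h1' : R₁ ⊆ Finset.univ \ F := Finset.mem_powerset.1 h1
        have h2' : R₂ ⊆ Finset.univ \ F := Finset.mem_powerset.1 h2
        rw [← key R₁ h1', ← key R₂ h2', h12]
      have hcard := Finset.card_le_card hsub
      rw [Finset.card_image_of_injOn hinj, Finset.card_powerset, Finset.card_univ_diff, Fintype.card_fin] at hcard
      calc 2 ^ n = 2 ^ F.card * 2 ^ (n - F.card) := by rw [← pow_add]; congr 1; omega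
        _ ≤ 2 ^ (2 * (T + 1)) * 2 ^ (n - F.card) :=
            Nat.mul_le_mul_right _ (Nat.pow_le_pow_right (by norm_num) hFc)
        _ = 4 ^ (T + 1) * 2 ^ (n - F.card) := by rw [pow_mul]; norm_num
        _ ≤ _ := Nat.mul_le_mul_left _ hcard
  -- double counting
  have hsum : (E.filter fun e => good e).card * 2 ^ n ≤ 4 ^ (T + 1) * (2 ^ n * eIn G (SR R)) := by
    calc (E.filter fun e => good e).card * 2 ^ n = ∑ _e ∈ E.filter (fun e => good e), 2 ^ n := by simp
      _ ≤ ∑ e ∈ E.filter (fun e => good e),
          4 ^ (T + 1) * ((Finset.univ : Finset (Finset (Fin n))).filter fun R => ∀ x ∈ e, x ∈ SR R).card :=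
          Finset.sum_le_sum hcnt
      _ = 4 ^ (T + 1) * ∑ e ∈ E.filter (fun e => good e),
          ((Finset.univ : Finset (Finset (Fin n))).filter fun R => ∀ x ∈ e, x ∈ SR R).card := by
          rw [Finset.mul_sum]
      _ ≤ 4 ^ (T + 1) * ∑ e ∈ E,
          ((Finset.univ : Finset (Finset (Fin n))).filter fun R => ∀ x ∈ e, x ∈ SR R).card := by
          apply Nat.mul_le_mul_left
          exact Finset.sum_le_sum_of_subset (Finset.filter_subset _ _)
      _ = 4 ^ (T + 1) * ∑ R : Finset (Fin n), eIn G (SR R) := by
          congr 1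
          simp only [hin, Finset.card_filter]
          rw [Finset.sum_comm]
      _ ≤ 4 ^ (T + 1) * ∑ _R : Finset (Fin n), eIn G (SR R) := by
          apply Nat.mul_le_mul_left
          exact Finset.sum_le_sum fun R' _ => hR R' (Finset.mem_univ _)
      _ = _ := by simp
  have hg2 : (E.filter fun e => good e).card ≤ 4 ^ (T + 1) * eIn G (SR R) := by
    have hpos : 0 < 2 ^ n := by positivity
    have : (E.filter fun e => good e).card * 2 ^ n ≤ (4 ^ (T + 1) * eIn G (SR R)) * 2 ^ n := by
      calc _ ≤ _ := hsum
        _ = _ := by ring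
    exact Nat.le_of_mul_le_mul_right this hpos
  rw [hEc, ← Finset.card_filter_add_card_filter_not (s := E) (fun e => good e)]
  omega

end Pool.Agent.K7.H99.IPRAND
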