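import Pool.Agent.K7.H39.IQ.Stm

/-!
# Project IQ: basic facts on the four linear forms (helper99)
-/

set_option autoImplicit false

namespace Pool.Agent.K7.H99.IQ

open Metric Set MeasureTheory Filter Topology Pool.Agent.K7.H39.Cube Pool.Agent.K7.H39.IQ
open scoped Pointwise

theorem y_add (i : Fin 4) (a b : E3) : y i (a + b) = y i a + y i b := by
  fin_cases i <;> simp [y] <;> ring

theorem y_sub (i : Fin 4) (a b : E3) : y i (a - b) = y i a - y i b := by
  fin_cases i <;> simp [y] <;> ring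

theorem y_smul (i : Fin 4) (c : ℝ) (a : E3) : y i (c • a) = c * y i a := by
  fin_cases i <;> simp [y] <;> ring

theorem y_sum (x : E3) : y 0 x + y 1 x + y 2 x + y 3 x = 0 := by
  simp [y]; ring

theorem x0 (x : E3) : 4 * x 0 = y 0 x + y 1 x - y 2 x - y 3 x := by
  simp [y]; ring
theorem x1 (x : E3) : 4 * x 1 = y 0 x - y 1 x + y 2 x - y 3 x := by
  simp [y]; ring
theorem x2 (x : E3) : 4 * x 2 = y 0 x - y 1 x - y 2 x + y 3 x := by
  simp [y]; ring

/-- the linear form -/
noncomputable def yl (i : Fin 4) : E3 →ₗ[ℝ] ℝ where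
  toFun := y i
  map_add' := y_add i
  map_smul' := by intro c a; simpa using y_smul i c a

@[simp] theorem yl_apply (i : Fin 4) (x : E3) : yl i x = y i x := rfl

theorem y_cont (i : Fin 4) : Continuous (y i) := (yl i).continuous_of_finiteDimensional

/-- the vertices of the regular tetrahedron -/
noncomputable def w (i : Fin 4) : E3 :=
  WithLp.toLp 2 (![![1, 1, 1], ![1, -1, -1], ![-1, 1, -1], ![-1, -1, 1]] i)

theorem y_w (i j : Fin 4) : y j (w i) = if i = j then 3 else -1 := by
  fin_cases i <;> fin_cases j <;> simp [y, w] <;> norm_num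

/-- an affine plane is a null set -/
theorem plane_null (l : E3 →ₗ[ℝ] ℝ) (hl : l ≠ 0) (c : ℝ) : volume {x : E3 | l x = c} = 0 := by
  rcases Set.eq_empty_or_nonempty {x : E3 | l x = c} with h | ⟨x0, hx0⟩
  · rw [h]; simp
  · have h1 : {x : E3 | l x = c} = x0 +ᵥ ((LinearMap.ker l : Submodule ℝ E3) : Set E3) := by
      ext x
      rw [Set.mem_vadd_set_iff_neg_vadd_mem]
      have hx0' : l x0 = c := hx0
      simp only [mem_ofPred_eq, SetLike.mem_coe, LinearMap.mem_ker, vadd_eq_add, map_add, map_neg,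
        hx0']
      constructor
      · intro h; rw [h]; ring
      · intro h; linarith
    rw [h1, measure_vadd]
    apply Measure.addHaar_submodule
    intro h
    apply hl
    exact LinearMap.ker_eq_top.1 h

theorem yplane_null (i : Fin 4) (c : ℝ) : volume {x : E3 | y i x = c} = 0 := by
  apply plane_null (yl i)
  intro h
  have := congrArg (fun l : E3 →ₗ[ℝ] ℝ => l (w i)) h
  simp [y_w] at this

theorem B_closed (a b : ℝ) : IsClosed (B a b) := by
  have : B a b = ⋂ i : Fin 4, ({x | -a ≤ y i x} ∩ {x | y i x ≤ b}) := by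
    ext x
    simp [B]
  rw [this]
  exact isClosed_iInter fun i => (isClosed_le continuous_const (y_cont i)).inter
    (isClosed_le (y_cont i) continuous_const)

theorem B_bdd (a b : ℝ) : Bornology.IsBounded (B a b) := by
  rw [isBounded_iff_forall_norm_le]
  refine ⟨3 * (|a| + |b|), ?_⟩
  intro x hx
  have h : ∀ i, |y i x| ≤ |a| + |b| := by
    intro i
    obtain ⟨h1, h2⟩ := hx i
    rw [abs_le]
    constructor
    · linarith [le_abs_self a, abs_nonneg b, neg_abs_le a]
    · linarith [le_abs_self b, abs_nonneg a]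
  have h0 := abs_le.1 (h 0)
  have h1 := abs_le.1 (h 1)
  have h2 := abs_le.1 (h 2)
  have h3 := abs_le.1 (h 3)
  have e0 := x0 x
  have e1 := x1 x
  have e2 := x2 x
  have s : (0 : ℝ) ≤ |a| + |b| := by positivity
  have f0 : |x 0| ≤ |a| + |b| := by rw [abs_le]; constructor <;> linarith
  have f1 : |x 1| ≤ |a| + |b| := by rw [abs_le]; constructor <;> linarith
  have f2 : |x 2| ≤ |a| + |b| := by rw [abs_le]; constructor <;> linarith
  have hn : ‖x‖ ^ 2 = |x 0| ^ 2 + |x 1| ^ 2 + |x 2| ^ 2 := by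
    rw [EuclideanSpace.real_norm_sq_eq, Fin.sum_univ_three]
    simp
  have g0 : |x 0| ^ 2 ≤ (|a| + |b|) ^ 2 := by gcongr
  have g1 : |x 1| ^ 2 ≤ (|a| + |b|) ^ 2 := by gcongr
  have g2 : |x 2| ^ 2 ≤ (|a| + |b|) ^ 2 := by gcongr
  have : ‖x‖ ^ 2 ≤ (3 * (|a| + |b|)) ^ 2 := by nlinarith
  exact le_of_sq_le_sq this (by positivity)

theorem B_compact (a b : ℝ) : IsCompact (B a b) :=
  Metric.isCompact_of_isClosed_isBounded (B_closed a b) (B_bdd a b)

theorem B_convex (a b : ℝ) : Convex ℝ (B a b) := by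
  intro p hp q hq s t hs ht hst i
  obtain ⟨h1, h2⟩ := hp i
  obtain ⟨h3, h4⟩ := hq i
  rw [y_add, y_smul, y_smul]
  have k1 := mul_le_mul_of_nonneg_left h1 hs
  have k2 := mul_le_mul_of_nonneg_left h2 hs
  have k3 := mul_le_mul_of_nonneg_left h3 ht
  have k4 := mul_le_mul_of_nonneg_left h4 ht
  have e1 : s * -a + t * -a = -a := by rw [← add_mul, hst, one_mul]
  have e2 : s * b + t * b = b := by rw [← add_mul, hst, one_mul]
  constructor <;> linarith

end Pool.Agent.K7.H99.IQ
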