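import Pool.Agent.K7.H99.IQ_BASE

/-!
# Project IQ, job SHT: the shadows of the regular tetrahedron (helper99)
-/

set_option autoImplicit false

namespace Pool.Agent.K7.H99.IQ

open Metric Set MeasureTheory Filter Topology Pool.Agent.K7.H39.Cube Pool.Agent.K7.H39.IQ
open scoped Pointwise

/-- A compact set that contains one half of a parallelepiped (a triangular prism). -/
theorem half_box {K : Set E3} (hK : IsCompact K) (v a b u : E3)
    (h : ∀ s t r : ℝ, 0 ≤ s → 0 ≤ t → s + t ≤ 1 → 0 ≤ r → r ≤ 1 →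
      v + s • a + t • b + r • u ∈ K) :
    |det3 a b u| ≤ 2 * vol K := by
  rw [← vol_fbox]
  have h1 : fbox a b u ⊆ (fun x => x + v) ⁻¹' K ∪ (fun x => (v + a + b + u) - x) ⁻¹' K := by
    rintro _ ⟨_, ⟨_, ⟨s, ⟨hs0, hs1⟩, rfl⟩, _, ⟨t, ⟨ht0, ht1⟩, rfl⟩, rfl⟩, _, ⟨r, ⟨hr0, hr1⟩, rfl⟩, rfl⟩
    rcases le_total (s + t) 1 with hst | hst
    · left
      have := h s t r hs0 ht0 hst hr0 hr1
      simp only [mem_preimage]
      convert this using 1
      abel
    · right
      have := h (1 - s) (1 - t) (1 - r) (by linarith) (by linarith) (by linarith) (by linarith)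
        (by linarith)
      simp only [mem_preimage]
      convert this using 1
      module
  have m1 : volume ((fun x => x + v) ⁻¹' K) = volume K := measure_preimage_add_right volume v K
  have m2 : volume ((fun x => (v + a + b + u) - x) ⁻¹' K) = volume K := by
    have := (Measure.measurePreserving_sub_left (volume : Measure E3) (v + a + b + u))
    exact this.measure_preimage hK.measurableSet.nullMeasurableSet
  have h2 : volume (fbox a b u) ≤ volume K + volume K :=
    (measure_mono h1).trans ((measure_union_le _ _).trans (by rw [m1, m2]))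
  have hfin : volume K ≠ ⊤ := hK.measure_ne_top
  unfold vol
  calc (volume (fbox a b u)).toReal ≤ (volume K + volume K).toReal :=
        ENNReal.toReal_mono (ENNReal.add_ne_top.2 ⟨hfin, hfin⟩) h2
    _ = 2 * (volume K).toReal := by rw [ENNReal.toReal_add hfin hfin]; ring

/-- the facet -/
def F (i : Fin 4) : Set E3 := B 1 3 ∩ {x | y i x = -1}

theorem F_compact (i : Fin 4) : IsCompact (F i) :=
  (B_compact 1 3).inter_right (isClosed_eq (y_cont i) continuous_const)

theorem F_tri (i j k l : Fin 4) (hij : i ≠ j) (hik : i ≠ k) (hil : i ≠ l) (hjk : j ≠ k)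
    (hjl : j ≠ l) (hkl : k ≠ l) (s t : ℝ) (hs : 0 ≤ s) (ht : 0 ≤ t) (hst : s + t ≤ 1) :
    w j + s • (w k - w j) + t • (w l - w j) ∈ F i := by
  refine ⟨?_, ?_⟩
  · intro m
    rw [y_add, y_add, y_smul, y_smul, y_sub, y_sub, y_w, y_w, y_w]
    by_cases h1 : j = m <;> by_cases h2 : k = m <;> by_cases h3 : l = m
    all_goals first
      | (exfalso; subst h1; exact hjk h2.symm)
      | (exfalso; subst h1; exact hjl h3.symm)
      | (exfalso; subst h2; exact hkl h3.symm)
      | (simp only [h1, h2, h3, if_true, if_false]; constructor <;> linarith)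
  · show y i _ = -1
    rw [y_add, y_add, y_smul, y_smul, y_sub, y_sub, y_w, y_w, y_w, if_neg hij.symm, if_neg hik.symm,
      if_neg hil.symm]
    ring

/-- the prism over a facet -/
def E (u : E3) (i : Fin 4) : Set E3 := F i + Sg u 0 1

theorem E_compact (u : E3) (i : Fin 4) : IsCompact (E u i) := (F_compact i).add (Sg_compact _ _ _)

theorem vol_E (u : E3) (i : Fin 4) : 2 * |y i u| ≤ vol (E u i) := by
  have key : ∀ j k l : Fin 4, i ≠ j → i ≠ k → i ≠ l → j ≠ k → j ≠ l → k ≠ l →
      |det3 (w k - w j) (w l - w j) u| ≤ 2 * vol (E u i) := by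
    intro j k l hij hik hil hjk hjl hkl
    apply half_box (E_compact u i) (w j)
    intro s t r hs ht hst hr0 hr1
    exact ⟨_, F_tri i j k l hij hik hil hjk hjl hkl s t hs ht hst, _, ⟨r, ⟨hr0, hr1⟩, rfl⟩, rfl⟩
  have hd : ∀ a b : ℝ, |a| = 4 * |b| → |a| ≤ 2 * vol (E u i) → 2 * |b| ≤ vol (E u i) := by
    intro a b h1 h2; linarith
  have h4 : ∀ a b : ℝ, a = 4 * b ∨ a = -(4 * b) → |a| = 4 * |b| := by
    intro a b h
    rcases h with rfl | rfl
    · rw [abs_mul]; norm_num
    · rw [abs_neg, abs_mul]; norm_num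
  fin_cases i
  · refine hd _ _ (h4 _ _ ?_) (key 1 2 3 (by decide) (by decide) (by decide) (by decide) (by decide) (by decide))
    simp [det3, w, y]
    first | (left; ring1) | (right; ring1)
  · refine hd _ _ (h4 _ _ ?_) (key 0 2 3 (by decide) (by decide) (by decide) (by decide) (by decide) (by decide))
    simp [det3, w, y]
    first | (left; ring1) | (right; ring1)
  · refine hd _ _ (h4 _ _ ?_) (key 0 1 3 (by decide) (by decide) (by decide) (by decide) (by decide) (by decide))
    simp [det3, w, y]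
    first | (left; ring1) | (right; ring1)
  · refine hd _ _ (h4 _ _ ?_) (key 0 1 2 (by decide) (by decide) (by decide) (by decide) (by decide) (by decide))
    simp [det3, w, y]
    first | (left; ring1) | (right; ring1)

theorem disj_TE (u : E3) (i : Fin 4) (hi : y i u < 0) : volume (B 1 3 ∩ E u i) = 0 := by
  apply measure_mono_null _ (yplane_null i (-1))
  rintro x ⟨hx, ⟨f, ⟨hf, hf1⟩, _, ⟨s, ⟨hs0, hs1⟩, rfl⟩, rfl⟩⟩
  have h1 := (hx i).1
  have hf2 : y i f = -1 := hf1
  simp only [y_add, y_smul] at h1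
  show y i (f + s • u) = -1
  rw [y_add, y_smul]
  rw [hf2] at h1 ⊢
  nlinarith

theorem disj_EE (u : E3) (i j : Fin 4) (hij : i ≠ j) (hi : y i u < 0) (hj : y j u < 0) :
    volume (E u i ∩ E u j) = 0 := by
  have hl : (y j u) • yl i - (y i u) • yl j ≠ 0 := by
    intro h
    have h1 := congrArg (fun l : E3 →ₗ[ℝ] ℝ => l (w i)) h
    have h2 := congrArg (fun l : E3 →ₗ[ℝ] ℝ => l (w j)) h
    simp [y_w, hij, hij.symm] at h1 h2
    linarith
  apply measure_mono_null _ (plane_null _ hl (y i u - y j u))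
  rintro x ⟨⟨f, ⟨hf, hf1⟩, _, ⟨s, ⟨hs0, hs1⟩, rfl⟩, hx⟩, ⟨g, ⟨hg, hg1⟩, _, ⟨t, ⟨ht0, ht1⟩, rfl⟩, hx'⟩⟩
  have hf2 : y i f = -1 := hf1
  have hg2 : y j g = -1 := hg1
  simp only at hx hx'
  have ei : y i f + s * y i u = y i g + t * y i u := by
    rw [← y_smul, ← y_smul, ← y_add, ← y_add, hx, hx']
  have ej : y j f + s * y j u = y j g + t * y j u := by
    rw [← y_smul, ← y_smul, ← y_add, ← y_add, hx, hx']
  have h1 := (hg i).1
  have h2 := (hf j).1
  rw [hf2] at ei
  rw [hg2] at ej
  -- `(s - t) y_i u = y_i g + 1 ≥ 0`, so `s ≤ t`; `(t - s) y_j u = y_j f + 1 ≥ 0`, so `t ≤ s`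
  have k1 : s ≤ t := by
    by_contra hc
    push Not at hc
    nlinarith
  have k2 : t ≤ s := by
    by_contra hc
    push Not at hc
    nlinarith
  have hst : s = t := le_antisymm k1 k2
  subst hst
  show y j u * y i x - y i u * y j x = y i u - y j u
  rw [← hx, y_add, y_add, y_smul, y_smul, hf2]
  have : y j f = -1 := by linarith
  rw [this]
  ring

theorem sht : S_SHT := by
  intro u
  set T := B 1 3 with hT
  set J : Finset (Fin 4) := Finset.univ.filter (fun i => y i u < 0) with hJ
  have hJm : ∀ i, i ∈ J → y i u < 0 := by intro i hi; simpa [hJ] using hi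
  -- the sum
  have hsum : ∑ i : Fin 4, |y i u| = ∑ i ∈ J, 2 * |y i u| := by
    have h0 := y_sum u
    rw [hJ, Finset.sum_filter, Fin.sum_univ_four, Fin.sum_univ_four]
    have e : ∀ z : ℝ, |z| = (if z < 0 then 2 * |z| else 0) + z := by
      intro z
      split_ifs with h
      · rw [abs_of_neg h]; ring
      · rw [abs_of_nonneg (not_lt.1 h)]; ring
    rw [e (y 0 u), e (y 1 u), e (y 2 u), e (y 3 u)]
    have e2 : ∀ z : ℝ, (if z < 0 then 2 * ((if z < 0 then 2 * |z| else 0) + z) else 0) = 
      (if z < 0 then 2 * |z| else 0) := by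
      intro z
      split_ifs with h
      · rw [abs_of_neg h]; ring
      · rfl
    simp only [e2]
    linarith
  have hTc : IsCompact T := B_compact 1 3
  have hTS : IsCompact (T + Sg u 0 1) := hTc.add (Sg_compact _ _ _)
  have hEm : ∀ i, MeasurableSet (E u i) := fun i => (E_compact u i).measurableSet
  have hU : volume (⋃ i ∈ J, E u i) = ∑ i ∈ J, volume (E u i) := by
    apply measure_biUnion_finset₀
    · intro i hi j hj hij
      exact disj_EE u i j hij (hJm i hi) (hJm j hj)
    · intro i _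
      exact (hEm i).nullMeasurableSet
  have hD : AEDisjoint volume T (⋃ i ∈ J, E u i) := by
    show volume (T ∩ ⋃ i ∈ J, E u i) = 0
    rw [inter_iUnion₂]
    refine (measure_biUnion_null_iff J.countable_toSet).2 ?_
    intro i hi
    exact disj_TE u i (hJm i hi)
  have hUm : MeasurableSet (⋃ i ∈ J, E u i) := Finset.measurableSet_biUnion _ (fun i _ => hEm i)
  have h1 : volume (T ∪ ⋃ i ∈ J, E u i) = volume T + ∑ i ∈ J, volume (E u i) := by
    rw [measure_union₀ hUm.nullMeasurableSet hD, hU]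
  have h2 : T ∪ ⋃ i ∈ J, E u i ⊆ T + Sg u 0 1 := by
    apply union_subset
    · intro x hx
      exact ⟨x, hx, 0, ⟨0, ⟨le_rfl, zero_le_one⟩, zero_smul _ _⟩, add_zero _⟩
    · apply iUnion₂_subset
      intro i _
      exact add_subset_add_right inter_subset_left
  have h3 : volume T + ∑ i ∈ J, volume (E u i) ≤ volume (T + Sg u 0 1) := by
    rw [← h1]; exact measure_mono h2
  have h4 := ENNReal.toReal_mono hTS.measure_ne_top h3
  rw [ENNReal.toReal_add hTc.measure_ne_top
    (ENNReal.sum_ne_top.2 fun i _ => (E_compact u i).measure_ne_top),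
    ENNReal.toReal_sum (fun i _ => (E_compact u i).measure_ne_top)] at h4
  have h5 : ∑ i ∈ J, 2 * |y i u| ≤ ∑ i ∈ J, (volume (E u i)).toReal :=
    Finset.sum_le_sum fun i _ => vol_E u i
  rw [hsum]
  unfold G vol
  linarith

end Pool.Agent.K7.H99.IQ
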