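import Pool.Agent.K7.H99.IQ_BASE

/-!
# Project IQ, job VOL: the volume of the truncated tetrahedra (helper99)
-/

set_option autoImplicit false

namespace Pool.Agent.K7.H99.IQ

open Metric Set MeasureTheory Filter Topology Pool.Agent.K7.H39.Cube Pool.Agent.K7.H39.IQ
open scoped Pointwise

/-- tetrahedra -/
def Te (a : ℝ) : Set E3 := {x | ∀ i : Fin 4, -a ≤ y i x}

theorem y_le (x : E3) {a : ℝ} (h : ∀ i : Fin 4, -a ≤ y i x) (i : Fin 4) : y i x ≤ 3 * a := by
  have h0 := h 0
  have h1 := h 1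
  have h2 := h 2
  have h3 := h 3
  have hs := y_sum x
  fin_cases i
  · show y 0 x ≤ 3 * a; linarith
  · show y 1 x ≤ 3 * a; linarith
  · show y 2 x ≤ 3 * a; linarith
  · show y 3 x ≤ 3 * a; linarith

theorem Te_eq (a : ℝ) : Te a = B a (3 * a) := by
  ext x
  constructor
  · intro h i
    exact ⟨h i, y_le x h i⟩
  · intro h i
    exact (h i).1

theorem Te_compact (a : ℝ) : IsCompact (Te a) := by rw [Te_eq]; exact B_compact _ _

theorem Te_zero : Te 0 = {0} := by
  ext x
  constructor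
  · intro h
    have h0 := h 0
    have h1 := h 1
    have h2 := h 2
    have h3 := h 3
    have hs := y_sum x
    have e0 := x0 x
    have e1 := x1 x
    have e2 := x2 x
    rw [mem_singleton_iff]
    ext i
    fin_cases i
    · show x 0 = 0; linarith
    · show x 1 = 0; linarith
    · show x 2 = 0; linarith
  · rintro rfl i
    have : y i (0 : E3) = 0 := by
      have := y_smul i 0 (0 : E3)
      rwa [zero_smul, zero_mul] at this
    rw [this]; simp

theorem Te_smul {a : ℝ} (ha : 0 ≤ a) : Te a = a • Te 1 := by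
  rcases eq_or_lt_of_le ha with h | h
  · subst h
    rw [Te_zero, Set.zero_smul_set]
    · rfl
    · refine ⟨0, ?_⟩
      intro i
      have : y i (0 : E3) = 0 := by
        have := y_smul i 0 (0 : E3)
        rwa [zero_smul, zero_mul] at this
      rw [this]; norm_num
  · ext x
    rw [Set.mem_smul_set_iff_inv_smul_mem₀ h.ne']
    unfold Te
    simp only [mem_ofPred_eq]
    apply forall_congr'
    intro i
    rw [y_smul, inv_mul_eq_div, le_div_iff₀ h]
    constructor <;> intro h <;> linarith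

theorem vol_Te {a : ℝ} (ha : 0 ≤ a) : vol (Te a) = a ^ 3 * vol (Te 1) := by
  unfold vol
  rw [Te_smul ha, Measure.addHaar_smul, ENNReal.toReal_mul, ENNReal.toReal_ofReal (abs_nonneg _)]
  simp only [finrank_euclideanSpace, Fintype.card_fin]
  rw [abs_of_nonneg (by positivity)]

/-- the corner -/
def Co (a b : ℝ) (i : Fin 4) : Set E3 := Te a ∩ {x | b < y i x}

theorem Co_meas (a b : ℝ) (i : Fin 4) : MeasurableSet (Co a b i) :=
  (Te_compact a).measurableSet.inter (isOpen_lt continuous_const (y_cont i)).measurableSet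

theorem Co_closed {a b : ℝ} (ha : 0 ≤ a) (hab : a ≤ b) (i : Fin 4) :
    Te a ∩ {x | b ≤ y i x} = Te ((3 * a - b) / 4) + {(a - (3 * a - b) / 4) • w i} := by
  ext x
  rw [add_singleton]
  constructor
  · rintro ⟨h1, h2⟩
    refine ⟨x - (a - (3 * a - b) / 4) • w i, ?_, by simp⟩
    intro j
    rw [y_sub, y_smul, y_w]
    have h3 := h1 j
    have h4 : b ≤ y i x := h2
    split_ifs with hij
    · subst hij; linarith
    · linarith
  · rintro ⟨z, hz, rfl⟩
    refine ⟨?_, ?_⟩
    · intro j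
      simp only [y_add, y_smul, y_w]
      have h3 := hz j
      split_ifs with hij
      · linarith
      · linarith
    · show b ≤ y i _
      simp only [y_add, y_smul, y_w, if_true]
      have h3 := hz i
      linarith

theorem vol_Co {a b : ℝ} (ha : 0 ≤ a) (hab : a ≤ b) (hb : b ≤ 3 * a) (i : Fin 4) :
    vol (Co a b i) = ((3 * a - b) / 4) ^ 3 * vol (Te 1) := by
  have h1 : Co a b i = (Te a ∩ {x | b ≤ y i x}) \ {x | y i x = b} := by
    ext x
    unfold Co
    constructor
    · rintro ⟨h1, h2⟩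
      have h3 : b < y i x := h2
      exact ⟨⟨h1, h3.le⟩, fun h => h3.ne' h⟩
    · rintro ⟨⟨h1, h2⟩, h3⟩
      exact ⟨h1, lt_of_le_of_ne h2 (fun h => h3 h.symm)⟩
  have h2 : vol (Co a b i) = vol (Te a ∩ {x | b ≤ y i x}) := by
    unfold vol
    rw [h1, measure_sdiff_null (yplane_null i b)]
  rw [h2, Co_closed ha hab, vol_translate, vol_Te (by linarith)]

theorem cut {a b : ℝ} (ha : 0 < a) (hab : a ≤ b) (hb : b ≤ 3 * a) :
    vol (B a b) = a ^ 3 * vol (Te 1) - 4 * (((3 * a - b) / 4) ^ 3 * vol (Te 1)) := by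
  have h1 : Te a = B a b ∪ ⋃ i, Co a b i := by
    ext x
    constructor
    · intro h
      by_cases hx : ∃ i, b < y i x
      · obtain ⟨i, hi⟩ := hx
        right
        exact mem_iUnion.2 ⟨i, h, hi⟩
      · push Not at hx
        left
        exact fun i => ⟨h i, hx i⟩
    · rintro (h | h)
      · exact fun i => (h i).1
      · obtain ⟨i, hi⟩ := mem_iUnion.1 h
        exact hi.1
  have hpd : Pairwise (Function.onFun Disjoint (Co a b)) := by
    intro i j hij
    rw [Function.onFun, Set.disjoint_left]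
    rintro x ⟨hx, hxi⟩ ⟨-, hxj⟩
    have hi : b < y i x := hxi
    have hj : b < y j x := hxj
    have h0 := hx 0
    have h1 := hx 1
    have h2 := hx 2
    have h3 := hx 3
    have hs := y_sum x
    fin_cases i <;> fin_cases j <;> first | exact absurd rfl hij | skip
    all_goals
      simp only [Fin.zero_eta, Fin.mk_one, Fin.reduceFinMk] at hi hj
      linarith
  have hd : Disjoint (B a b) (⋃ i, Co a b i) := by
    rw [Set.disjoint_left]
    intro x hx hx'
    obtain ⟨i, hi⟩ := mem_iUnion.1 hx'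
    exact absurd (hx i).2 (not_le.2 hi.2)
  have hm : MeasurableSet (⋃ i, Co a b i) := MeasurableSet.iUnion (Co_meas a b)
  have h2 : volume (Te a) = volume (B a b) + ∑ i, volume (Co a b i) := by
    rw [h1, measure_union hd hm, measure_iUnion hpd (Co_meas a b), tsum_fintype]
  have hfin : ∀ i, volume (Co a b i) ≠ ⊤ := by
    intro i
    exact ((measure_mono inter_subset_left).trans_lt
      (Te_compact a).measure_lt_top).ne
  have h3 := congrArg ENNReal.toReal h2
  rw [ENNReal.toReal_add (B_compact a b).measure_ne_top (ENNReal.sum_ne_top.2 fun i _ => hfin i),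
    ENNReal.toReal_sum (fun i _ => hfin i)] at h3
  have h4 : vol (Te a) = vol (B a b) + ∑ i, vol (Co a b i) := h3
  simp only [vol_Co ha.le hab hb] at h4
  rw [vol_Te ha.le] at h4
  simp only [Finset.sum_const, Finset.card_univ, Fintype.card_fin, nsmul_eq_mul] at h4
  push_cast at h4
  linarith

theorem octa : B 1 1 = {x : E3 | |x 0| + |x 1| + |x 2| ≤ 1} := by
  ext x
  have e : ∀ i, y i x = ![x 0 + x 1 + x 2, x 0 - x 1 - x 2, -x 0 + x 1 - x 2, -x 0 - x 1 + x 2] i :=
    fun i => rfl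
  constructor
  · intro h
    obtain ⟨a0, b0⟩ := h 0
    obtain ⟨a1, b1⟩ := h 1
    obtain ⟨a2, b2⟩ := h 2
    obtain ⟨a3, b3⟩ := h 3
    simp [e] at a0 b0 a1 b1 a2 b2 a3 b3
    show |x 0| + |x 1| + |x 2| ≤ 1
    rcases abs_cases (x 0) with ⟨h0, _⟩ | ⟨h0, _⟩ <;> rcases abs_cases (x 1) with ⟨h1, _⟩ | ⟨h1, _⟩ <;>
      rcases abs_cases (x 2) with ⟨h2, _⟩ | ⟨h2, _⟩ <;> rw [h0, h1, h2] <;> linarith
  · intro h
    have h' : |x 0| + |x 1| + |x 2| ≤ 1 := h
    have p0 := le_abs_self (x 0)
    have p1 := le_abs_self (x 1)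
    have p2 := le_abs_self (x 2)
    have q0 := neg_abs_le (x 0)
    have q1 := neg_abs_le (x 1)
    have q2 := neg_abs_le (x 2)
    intro i
    fin_cases i <;> simp [y] <;> constructor <;> linarith

theorem vol_octa : vol (B 1 1) = 4 / 3 := by
  have h1 := volume_sum_rpow_le (Fin 3) (p := 1) le_rfl 1
  have h2 := (PiLp.volume_preserving_toLp (Fin 3)).measure_preimage
    (s := B 1 1) (B_compact 1 1).measurableSet.nullMeasurableSet
  have h3 : (WithLp.toLp 2 : (Fin 3 → ℝ) → E3) ⁻¹' (B 1 1) =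
      {x : Fin 3 → ℝ | (∑ i, |x i| ^ (1 : ℝ)) ^ (1 / (1 : ℝ)) ≤ 1} := by
    rw [octa]
    ext x
    simp [Fin.sum_univ_three]
  unfold vol
  rw [← h2]
  have h4 : (volume : Measure (Fin 3 → ℝ)) ((WithLp.toLp 2 : (Fin 3 → ℝ) → E3) ⁻¹' (B 1 1)) =
    ENNReal.ofReal (4 / 3) := by
    rw [h3, h1]
    have g2 : Real.Gamma (1 / 1 + 1) = 1 := by
      rw [show (1 / 1 + 1 : ℝ) = (1 : ℕ) + 1 by norm_num, Real.Gamma_nat_eq_factorial]
      simp
    have g4 : Real.Gamma ((Fintype.card (Fin 3) : ℝ) / 1 + 1) = 6 := by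
      rw [show ((Fintype.card (Fin 3) : ℝ) / 1 + 1 : ℝ) = (3 : ℕ) + 1 by simp,
        Real.Gamma_nat_eq_factorial]
      norm_num [Nat.factorial]
    rw [g2, g4]
    simp
    norm_num
  rw [h4, ENNReal.toReal_ofReal (by norm_num)]

theorem vol_T1 : vol (Te 1) = 8 / 3 := by
  have h := cut (a := 1) (b := 1) one_pos le_rfl (by norm_num)
  rw [vol_octa] at h
  linarith

theorem vol_holds : S_VOL := by
  intro a b ha hab hb
  rw [cut ha hab hb, vol_T1]
  ring

end Pool.Agent.K7.H99.IQ
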