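import Pool.Agent.K7.H97.MI.Basic

/-!
Project MI, job STEPP: adding the non-diagonalizable matrices (and the scalars) of sign `s`.
-/

set_option autoImplicit false
set_option linter.unusedVariables false

open Polynomial

namespace Pool.Agent.K7.H99.MIP

open Pool.Agent.K7.H97.MI

/-! ### the matrix formula -/

/-- `D (1 + ν ^ 2) ^ 2 ht T + Y tl T Ȳ` with `Y = (D - E) (1 + ν ^ 2) + E tl v`, `ν = dd v` -/
noncomputable def YY (D E : ℝ) (v : M2) : M2 :=
  ((D - E) * (1 + dd v ^ 2)) • (1 : M2) + E • tl v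

noncomputable def YB (D E : ℝ) (v : M2) : M2 :=
  ((D - E) * (1 + dd v ^ 2)) • (1 : M2) + (-E) • tl v

noncomputable def GG (D E : ℝ) (T v : M2) : M2 :=
  ((D * (1 + dd v ^ 2)) ^ 2 * ht T) • (1 : M2) + YY D E v * tl T * YB D E v

noncomputable def dY (D E : ℝ) (v : M2) : ℝ :=
  ((D - E) * (1 + dd v ^ 2)) ^ 2 - E ^ 2 * dd v

theorem det_YY (D E : ℝ) (v : M2) : (YY D E v).det = dY D E v := by
  have h1 := dd_mk_smul ((D - E) * (1 + dd v ^ 2)) E v
  have h2 := ht_mk_smul ((D - E) * (1 + dd v ^ 2)) E v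
  rw [det_eq, YY, h1, h2, dY]

theorem det_YB (D E : ℝ) (v : M2) : (YB D E v).det = dY D E v := by
  have h1 := dd_mk_smul ((D - E) * (1 + dd v ^ 2)) (-E) v
  have h2 := ht_mk_smul ((D - E) * (1 + dd v ^ 2)) (-E) v
  rw [det_eq, YB, h1, h2, dY]; ring

theorem tr_YTY (D E : ℝ) (T v : M2) : (YY D E v * tl T * YB D E v).trace = 0 := by
  have hw : (tl v) 1 1 = - (tl v) 0 0 := by
    have := trace_tl v; rw [Matrix.trace_fin_two] at this; linarith
  have hT : (tl T) 1 1 = - (tl T) 0 0 := by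
    have := trace_tl T; rw [Matrix.trace_fin_two] at this; linarith
  generalize tl v = w at *
  generalize tl T = t at *
  unfold YY YB
  generalize hw' : (tl v) = w' at *
  simp only [Matrix.trace_fin_two, Matrix.mul_apply, Fin.sum_univ_two, Matrix.add_apply,
    Matrix.smul_apply, Matrix.one_apply, smul_eq_mul]
  have hw2 : w' 1 1 = - w' 0 0 := by
    rw [← hw']
    have := trace_tl v; rw [Matrix.trace_fin_two] at this; linarith
  simp only [hT, hw2]
  norm_num
  ring

theorem ht_GG (D E : ℝ) (T v : M2) : ht (GG D E T v) = (D * (1 + dd v ^ 2)) ^ 2 * ht T :=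
  ht_mk _ (tr_YTY D E T v)

theorem tl_GG (D E : ℝ) (T v : M2) : tl (GG D E T v) = YY D E v * tl T * YB D E v :=
  tl_mk _ (tr_YTY D E T v)

theorem dd_GG (D E : ℝ) (T v : M2) : dd (GG D E T v) = dY D E v ^ 2 * dd T := by
  rw [GG, dd_mk _ (tr_YTY D E T v), Matrix.det_mul, Matrix.det_mul, det_YY, det_YB,
    dd_eq_neg_det_tl T]
  ring

theorem GG_E_zero (D : ℝ) (T v : M2) : GG D 0 T v = (D * (1 + dd v ^ 2)) ^ 2 • T := by
  have h : GG D 0 T v = (D * (1 + dd v ^ 2)) ^ 2 • (ht T • (1 : M2) + tl T) := by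
    simp only [GG, YY, YB, sub_zero, neg_zero, zero_smul, add_zero, smul_mul_assoc, one_mul,
      mul_smul_comm, mul_one, smul_smul, smul_add]
    ring_nf
  rw [h, ht_add_tl]

theorem GG_zero (D E : ℝ) (v : M2) : GG D E 0 v = 0 := by
  simp [GG, ht, tl]

theorem GG_scalar (D E : ℝ) {T : M2} (hT : tl T = 0) (v : M2) :
    GG D E T v = (D * (1 + dd v ^ 2)) ^ 2 • T := by
  have h2 : GG D E T v = (D * (1 + dd v ^ 2)) ^ 2 • (ht T • (1 : M2) + tl T) := by
    rw [GG, hT]
    simp [smul_smul]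
  rw [h2, ht_add_tl]

/-- sandwich of a traceless matrix between a nilpotent one -/
theorem sandwich {w t : M2} (hw : w.trace = 0) (ht' : t.trace = 0) (hd : w.det = 0) :
    w * t * w = (w * t).trace • w := by
  have h1 : w 1 1 = - w 0 0 := by rw [Matrix.trace_fin_two] at hw; linarith
  have h2 : t 1 1 = - t 0 0 := by rw [Matrix.trace_fin_two] at ht'; linarith
  have h3 : w 0 0 * w 0 0 = - (w 0 1 * w 1 0) := by
    rw [Matrix.det_fin_two, h1] at hd; linarith
  ext i j
  fin_cases i <;> fin_cases j <;>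
    simp [Matrix.mul_apply, Fin.sum_univ_two, Matrix.trace_fin_two, h1, h2]
  · linear_combination (-t 0 0) * h3
  · linear_combination (-t 0 1) * h3
  · linear_combination (-t 1 0) * h3
  · linear_combination (t 0 0) * h3

/-- a nilpotent matrix not orthogonal to a given nonzero traceless matrix -/
theorem exists_nil {t : M2} (h : t.trace = 0) (h0 : t ≠ 0) :
    ∃ w : M2, w.trace = 0 ∧ w.det = 0 ∧ (w * t).trace ≠ 0 := by
  have h2 : t 1 1 = - t 0 0 := by rw [Matrix.trace_fin_two] at h; linarith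
  by_cases h01 : t 0 1 = 0
  · by_cases h10 : t 1 0 = 0
    · refine ⟨!![1, -1; 1, -1], by simp [Matrix.trace_fin_two],
        by simp [Matrix.det_fin_two], ?_⟩
      have h00 : t 0 0 ≠ 0 := by
        intro h00
        apply h0
        ext i j
        fin_cases i <;> fin_cases j <;> simp [h01, h10, h00, h2]
      rw [Matrix.trace_fin_two, Matrix.mul_apply, Matrix.mul_apply, Fin.sum_univ_two,
        Fin.sum_univ_two]
      simp [h01, h10, h2]
      intro h
      apply h00
      linarith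
    · refine ⟨!![0, 1; 0, 0], by simp [Matrix.trace_fin_two],
        by simp [Matrix.det_fin_two], ?_⟩
      rw [Matrix.trace_fin_two, Matrix.mul_apply, Matrix.mul_apply, Fin.sum_univ_two,
        Fin.sum_univ_two]
      simp [h10]
  · refine ⟨!![0, 0; 1, 0], by simp [Matrix.trace_fin_two],
      by simp [Matrix.det_fin_two], ?_⟩
    rw [Matrix.trace_fin_two, Matrix.mul_apply, Matrix.mul_apply, Fin.sum_univ_two,
      Fin.sum_univ_two]
    simp [h01]

/-! ### the map -/

noncomputable def Dz (k : ℕ) (T : M2) (z : ℝ) : ℝ := td z * qq T ^ k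

noncomputable def Ez (N : ℝ[X]) (k : ℕ) (T : M2) (z : ℝ) : ℝ :=
  th z * Nh N k (dd T) (ht T ^ 2)

theorem TR_GG {P : Om → M2} (hP : TR P) {D E : Om → ℝ} (hD : PR D) (hE : PR E) (n : ℕ) :
    TR (fun x => GG (D x) (E x) (P x) (x n)) := by
  have hv : TR (fun x => x n) := TR.var n
  have h1 : PR (fun x => 1 + dd (x n) ^ 2) := (PR.const 1).add (hv.dd.pow 2)
  have hY : TR (fun x => YY (D x) (E x) (x n)) :=
    TR.add ((hD.sub hE).mul h1) (PR.smul hE hv.tl)
  have hYB : TR (fun x => YB (D x) (E x) (x n)) :=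
    TR.add ((hD.sub hE).mul h1) (PR.smul hE.neg hv.tl)
  exact TR.add (((hD.mul h1).pow 2).mul hP.ht) ((hY.mul hP.tl).mul hYB)

theorem Dz_pos {k : ℕ} {T : M2} (h : 0 < qq T) (z : ℝ) : 0 < Dz k T z :=
  mul_pos (td_pos z) (pow_pos h k)

/-- `E = η θ D` where `η = N (r) / (1 + r ^ 2) ^ k` and `θ = th z / td z` -/
theorem Ez_eq {N : ℝ[X]} {k : ℕ} (hk : N.natDegree < 2 * k) {T : M2} (h : ht T ≠ 0) (z : ℝ) :
    Ez N k T z = (th z / td z * (N.eval (rr T) / (1 + rr T ^ 2) ^ k)) * Dz k T z := by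
  have h1 := td_pos z
  rw [Ez, Dz, Nh_qq hk h]
  field_simp

/-! ### the ratio of the new matrix -/

noncomputable def de (Θ ν : ℝ) : ℝ := (1 - Θ) ^ 2 - Θ ^ 2 * (ν / (1 + ν ^ 2) ^ 2)

theorem mu_abs (ν : ℝ) : |ν / (1 + ν ^ 2) ^ 2| ≤ 1 / 2 := by
  have h1 : 0 < 1 + ν ^ 2 := by positivity
  rw [abs_div, abs_of_pos (pow_pos h1 2), div_le_iff₀ (pow_pos h1 2)]
  have h2 : |ν| ≤ (1 + ν ^ 2) / 2 := by
    rw [abs_le]
    constructor <;> nlinarith [sq_nonneg (1 + ν), sq_nonneg (1 - ν)]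
  nlinarith [sq_nonneg ν]

theorem de_bounds {Θ ν : ℝ} (h0 : 0 ≤ Θ) (h1 : Θ ≤ 1) :
    de Θ ν ^ 2 ≤ 1 ∧ 1 - de Θ ν ^ 2 ≤ 4 * Θ ∧ (de Θ ν = 0 → 1 / 2 < Θ) := by
  have hm := mu_abs ν
  unfold de
  generalize ν / (1 + ν ^ 2) ^ 2 = μ at *
  have hm1 := (abs_le.1 hm).1
  have hm2 := (abs_le.1 hm).2
  have h2 : 0 ≤ Θ ^ 2 := sq_nonneg _
  have h3 : Θ ^ 2 ≤ Θ := by nlinarith
  have a1 : -(1 / 2) * Θ ^ 2 ≤ Θ ^ 2 * μ := by nlinarith
  have a2 : Θ ^ 2 * μ ≤ 1 / 2 * Θ ^ 2 := by nlinarith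
  generalize Θ ^ 2 * μ = m at *
  have b1 : (1 - Θ) ^ 2 - m ≤ 1 := by nlinarith
  have b2 : -1 ≤ (1 - Θ) ^ 2 - m := by nlinarith [sq_nonneg (1 - Θ)]
  have b3 : 1 - ((1 - Θ) ^ 2 - m) ≤ 2 * Θ := by nlinarith
  refine ⟨by nlinarith, ?_, ?_⟩
  · have : 1 - ((1 - Θ) ^ 2 - m) ^ 2 = (1 - ((1 - Θ) ^ 2 - m)) * (1 + ((1 - Θ) ^ 2 - m)) := by
      ring
    rw [this]
    nlinarith
  · intro h
    by_contra h4
    push Not at h4
    nlinarith

theorem rr_GG {D Θ : ℝ} {T : M2} (v : M2) (hD : 0 < D) (h : ht T ≠ 0) :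
    rr (GG D (Θ * D) T v) = de Θ (dd v) ^ 2 * rr T := by
  have h1 : 1 + dd v ^ 2 ≠ 0 := by positivity
  have h2 := hD.ne'
  rw [rr, rr, ht_GG, dd_GG, dY, de]
  field_simp

theorem sign_ht_GG {D E : ℝ} {T : M2} (v : M2) (hD : 0 < D) :
    SignType.sign (ht (GG D E T v)) = SignType.sign (ht T) := by
  have h1 : 0 < 1 + dd v ^ 2 := by positivity
  rw [ht_GG, sign_mul, sign_pos (pow_pos (mul_pos hD h1) 2), one_mul]

theorem ht_GG_ne {D E : ℝ} {T : M2} (v : M2) (hD : 0 < D) (h : ht T ≠ 0) :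
    ht (GG D E T v) ≠ 0 := by
  have h1 : 0 < 1 + dd v ^ 2 := by positivity
  rw [ht_GG]
  exact mul_ne_zero (pow_pos (mul_pos hD h1) 2).ne' h

theorem key_GG_zero {D : ℝ} (hD : 0 < D) (T v : M2) : key (GG D 0 T v) = key T := by
  have h1 : 0 < 1 + dd v ^ 2 := by positivity
  rw [GG_E_zero, key_smul (pow_pos (mul_pos hD h1) 2)]

theorem key_GG_scalar {D E : ℝ} (hD : 0 < D) {T : M2} (hT : tl T = 0) (v : M2) :
    key (GG D E T v) = key T := by
  have h1 : 0 < 1 + dd v ^ 2 := by positivity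
  rw [GG_scalar D E hT, key_smul (pow_pos (mul_pos hD h1) 2)]

/-- the main computation: the key of a new value is old or one of the two new ones -/
theorem main {K : Set Key} {Z : Finset ℝ} {ξ : ℝ} {s : SignType} (hloc : Local Z K)
    (h0 : (0 : ℝ) ∈ Z) (hξ0 : ξ ≠ 0) (hZ : ∀ c ∈ Z, c ≠ 0 → c ∉ Set.uIcc 0 ξ)
    {N : ℝ[X]} {k : ℕ} (hk : N.natDegree < 2 * k)
    (hN : ∀ r : ℝ, 0 ≤ N.eval r ∧ N.eval r ≤ (1 + r ^ 2) ^ k) (hNZ : ∀ z ∈ Z, N.eval z = 0)
    (hout : ∀ r : ℝ, r ∉ Set.Ioo (min 0 ξ) (max 0 ξ) → r ∉ Z → ∀ c ∈ Z,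
      24 * (1 + r ^ 2) * N.eval r < |r - c| * (1 + r ^ 2) ^ k)
    {T : M2} (hT0 : 0 < qq T) (hTK : key T ∈ K) (l : ℝ) (v : M2) :
    key (GG (Dz k T (s * (l ^ 2 * ht T))) (Ez N k T (s * (l ^ 2 * ht T))) T v) ∈
      insert (Key.reg 0 s) (insert (Key.sc s) K) := by
  generalize hz : (s : ℝ) * (l ^ 2 * ht T) = z
  have hD : 0 < Dz k T z := Dz_pos hT0 z
  by_cases hht : ht T = 0
  · have hE : Ez N k T z = 0 := by
      rw [Ez, hht]
      norm_num [Nh_zero]
    rw [hE, key_GG_zero hD]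
    exact Set.mem_insert_of_mem _ (Set.mem_insert_of_mem _ hTK)
  by_cases htl : tl T = 0
  · rw [key_GG_scalar hD htl]
    exact Set.mem_insert_of_mem _ (Set.mem_insert_of_mem _ hTK)
  have hkey := key_reg htl hht
  rw [hkey] at hTK
  rw [Ez_eq hk hht]
  generalize hr : rr T = r at *
  have hη := hN r
  have hpow : 0 < (1 + r ^ 2) ^ k := by positivity
  have hη0 : 0 ≤ N.eval r / (1 + r ^ 2) ^ k := div_nonneg hη.1 hpow.le
  have hη1 : N.eval r / (1 + r ^ 2) ^ k ≤ 1 := by rw [div_le_one hpow]; exact hη.2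
  have htd := td_pos z
  have hτ0 : 0 ≤ th z / td z := div_nonneg (th_nonneg z) htd.le
  have hτ1 : th z / td z ≤ 1 := by rw [div_le_one htd]; exact th_le z
  by_cases hrZ : r ∈ Z
  · rw [hNZ r hrZ, zero_div, mul_zero, zero_mul, key_GG_zero hD, hkey]
    exact Set.mem_insert_of_mem _ (Set.mem_insert_of_mem _ hTK)
  generalize hηd : N.eval r / (1 + r ^ 2) ^ k = η at *
  generalize hτd : th z / td z = τ at *
  have hΘ0 : 0 ≤ τ * η := mul_nonneg hτ0 hη0
  have hΘη : τ * η ≤ η := by nlinarith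
  have hΘτ : τ * η ≤ τ := by nlinarith
  have hΘ1 : τ * η ≤ 1 := hΘη.trans hη1
  obtain ⟨d1, d2, d3⟩ := de_bounds (ν := dd v) hΘ0 hΘ1
  have hrr := rr_GG (Θ := τ * η) v hD hht
  rw [hr] at hrr
  have hht' : ht (GG (Dz k T z) (τ * η * Dz k T z) T v) ≠ 0 := ht_GG_ne v hD hht
  have hsg : SignType.sign (ht (GG (Dz k T z) (τ * η * Dz k T z) T v)) =
      SignType.sign (ht T) := sign_ht_GG v hD
  generalize hG : GG (Dz k T z) (τ * η * Dz k T z) T v = G at *
  have hr0 : r ≠ 0 := fun h => hrZ (h ▸ h0)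
  by_cases hde : de (τ * η) (dd v) = 0
  · -- the new ones
    by_cases hin : r ∈ Set.Ioo (min 0 ξ) (max 0 ξ)
    · have hτ2 : 1 / 2 < τ := lt_of_lt_of_le (d3 hde) hΘτ
      have hz0 : 0 < z := by
        by_contra hz0
        push Not at hz0
        have := th_neg hz0
        rw [← hτd, lt_div_iff₀ htd] at hτ2
        linarith
      have hsT : SignType.sign (ht T) = s := by
        rw [← hz] at hz0
        exact sign_of_pos hz0
      by_cases htl' : tl G = 0
      · right; left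
        rw [key_eq_sc]
        exact ⟨hht', htl', hsg.trans hsT⟩
      · left
        rw [key_eq_reg]
        refine ⟨hht', htl', ?_, hsg.trans hsT⟩
        rw [hrr, hde]; ring
    · exfalso
      have h1 := hout r hin hrZ 0 h0
      have h2 := d3 hde
      have h3 : 1 / 2 < η := lt_of_lt_of_le h2 hΘη
      rw [← hηd, lt_div_iff₀ hpow] at h3
      rw [sub_zero] at h1
      have h4 : |r| ≤ (1 + r ^ 2) / 2 := by
        rw [abs_le]
        constructor <;> nlinarith [sq_nonneg (1 + r), sq_nonneg (1 - r)]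
      have h5 : 0 < 1 + r ^ 2 := by positivity
      nlinarith [mul_pos h5 hpow]
  · -- old ones
    right; right
    have hr' : rr G ≠ 0 := by
      rw [hrr]; exact mul_ne_zero (pow_ne_zero 2 hde) hr0
    have htl' : tl G ≠ 0 := by
      intro h
      apply hr'
      rw [rr, tl_eq_zero_of_dd h, zero_div]
    rw [key_reg htl' hht', hsg]
    refine hloc r (rr G) _ ?_ hTK
    intro c hc hcr
    have hd0 : 0 < de (τ * η) (dd v) ^ 2 := by positivity
    by_cases hin : r ∈ Set.Ioo (min 0 ξ) (max 0 ξ)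
    · -- `c` lies between `0` (exclusive) and `ξ`
      generalize de (τ * η) (dd v) ^ 2 = e at *
      rw [hrr] at hcr
      rcases lt_or_gt_of_ne hξ0 with hneg | hpos
      · rw [min_eq_right hneg.le, max_eq_left hneg.le] at hin
        have h1 : e * r < 0 := mul_neg_of_pos_of_neg hd0 hin.2
        have h2 : r ≤ e * r := by nlinarith [hin.2]
        rw [Set.uIcc_of_le h2] at hcr
        have hc0 : c ≠ 0 := by intro h; rw [h] at hcr; linarith [hcr.2]
        apply hZ c hc hc0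
        rw [Set.uIcc_of_ge hneg.le]
        exact ⟨by linarith [hin.1, hcr.1], by linarith [hcr.2]⟩
      · rw [min_eq_left hpos.le, max_eq_right hpos.le] at hin
        have h1 : 0 < e * r := mul_pos hd0 hin.1
        have h2 : e * r ≤ r := by nlinarith [hin.1]
        rw [Set.uIcc_of_ge h2] at hcr
        have hc0 : c ≠ 0 := by intro h; rw [h] at hcr; linarith [hcr.1]
        apply hZ c hc hc0
        rw [Set.uIcc_of_le hpos.le]
        exact ⟨by linarith [hcr.1], by linarith [hin.2, hcr.2]⟩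
    · have h1 := hout r hin hrZ c hc
      have h4 : |r| ≤ (1 + r ^ 2) / 2 := by
        rw [abs_le]
        constructor <;> nlinarith [sq_nonneg (1 + r), sq_nonneg (1 - r)]
      have h5 : 0 < 1 + r ^ 2 := by positivity
      have h6 : 24 * (1 + r ^ 2) * η < |r - c| := by
        rw [← hηd, mul_div_assoc', div_lt_iff₀ hpow]
        exact h1
      have h7 : |rr G - r| ≤ 4 * η * |r| := by
        rw [hrr]
        have : de (τ * η) (dd v) ^ 2 * r - r = -((1 - de (τ * η) (dd v) ^ 2) * r) := by ring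
        rw [this, abs_neg, abs_mul, abs_of_nonneg (by linarith)]
        apply mul_le_mul_of_nonneg_right _ (abs_nonneg _)
        linarith
      have h8 : 4 * η * |r| ≤ 2 * ((1 + r ^ 2) * η) := by nlinarith
      have h9 : 0 ≤ (1 + r ^ 2) * η := by positivity
      have h10 : |rr G - r| < |r - c| := by
        rcases h9.eq_or_lt with h9 | h9
        · have : |rr G - r| ≤ 0 := by linarith
          linarith
        · linarith
      rcases Set.mem_uIcc.1 hcr with h | h
      · rw [abs_of_nonneg (by linarith), abs_of_nonpos (by linarith)] at h10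
        linarith
      · rw [abs_of_nonpos (by linarith), abs_of_nonneg (by linarith)] at h10
        linarith

theorem stepP (hB : StBump) : StP := by
  intro K Z ξ s hReal hloc hnil h0 hs hξ hξ0 hZ
  obtain ⟨P, hP, hK⟩ := hReal
  obtain ⟨M, hM⟩ := hP.local
  have hpq : min 0 ξ < max 0 ξ := by
    rcases lt_or_gt_of_ne hξ0 with h | h
    · rw [min_eq_right h.le, max_eq_left h.le]; exact h
    · rw [min_eq_left h.le, max_eq_right h.le]; exact h
  have hZ' : ∀ z ∈ Z, z ∉ Set.Ioo (min 0 ξ) (max 0 ξ) := by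
    intro z hz hz'
    by_cases h : z = 0
    · rw [h] at hz'
      rcases lt_or_gt_of_ne hξ0 with h | h
      · rw [min_eq_right h.le, max_eq_left h.le] at hz'; exact lt_irrefl _ hz'.2
      · rw [min_eq_left h.le, max_eq_right h.le] at hz'; exact lt_irrefl _ hz'.1
    · exact hZ z hz h ⟨hz'.1.le, hz'.2.le⟩
  obtain ⟨N, k, hk, hN, hNZ, ⟨r1, hr1, hNr1⟩, hout⟩ :=
    hB Z (min 0 ξ) (max 0 ξ) hpq hZ' 24 (by norm_num)
  -- values of `P` with vanishing `q` are zero
  have hq : ∀ x, P x ≠ 0 → 0 < qq (P x) := by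
    intro x hx
    by_cases h1 : ht (P x) = 0
    · by_cases h2 : dd (P x) = 0
      · exfalso
        have h3 : tl (P x) ≠ 0 := by
          intro h3
          apply hx
          rw [← ht_add_tl (P x), h1, h3]; simp
        exact hnil ((hK Key.nil (by simp)).2 ⟨x, key_nil h3 h1 h2⟩)
      · exact qq_pos' h2
    · exact qq_pos h1
  have hmemK : ∀ x, P x ≠ 0 → key (P x) ∈ K := by
    intro x hx
    exact (hK _ (fun h => hx (key_eq_zero.1 h))).2 ⟨x, rfl⟩
  have hz : PR (fun x : Om => (s : ℝ) * ((x M).trace ^ 2 * ht (P x))) :=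
    (PR.const _).mul (((TR.var M).trace.pow 2).mul hP.ht)
  refine ⟨fun x => GG (Dz k (P x) ((s : ℝ) * ((x M).trace ^ 2 * ht (P x))))
    (Ez N k (P x) ((s : ℝ) * ((x M).trace ^ 2 * ht (P x)))) (P x) (x (M + 1)), ?_, ?_⟩
  · exact TR_GG hP (hz.td.mul (hP.qq.pow k)) (hz.th.mul (hP.Nh N k)) (M + 1)
  intro κ hκ
  -- evaluation at prescribed values of the fresh variables
  have hev : ∀ (x : Om) (l : ℝ) (v : M2), ∃ y : Om, P y = P x ∧ (y M).trace = l ∧
      y (M + 1) = v := by
    intro x l v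
    refine ⟨Function.update (Function.update x M ((l / 2) • (1 : M2))) (M + 1) v, ?_, ?_, ?_⟩
    · rw [fresh hM (by omega), fresh hM le_rfl]
    · rw [Function.update_of_ne (by omega), Function.update_self]
      simp [Matrix.trace_smul]
    · rw [Function.update_self]
  constructor
  · rintro (h | h | h)
    · -- Jordan blocks
      have hr1K : Key.reg r1 s ∈ K := by
        refine hloc ξ r1 s ?_ hξ
        intro c hc hcc
        by_cases h : c = 0
        · rw [h] at hcc
          rcases lt_or_gt_of_ne hξ0 with h | h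
          · rw [min_eq_right h.le, max_eq_left h.le] at hr1
            rcases Set.mem_uIcc.1 hcc with h' | h'
            · linarith [hr1.2, h'.2]
            · linarith [h'.2]
          · rw [min_eq_left h.le, max_eq_right h.le] at hr1
            rcases Set.mem_uIcc.1 hcc with h' | h'
            · linarith [h'.1]
            · linarith [hr1.1, h'.1]
        · apply hZ c hc h
          have h1 : r1 ∈ Set.uIcc 0 ξ := ⟨hr1.1.le, hr1.2.le⟩
          exact Set.uIcc_subset_uIcc Set.right_mem_uIcc h1 hcc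
      obtain ⟨x, hx⟩ := (hK _ (by simp)).1 hr1K
      obtain ⟨hx1, hx2, hx3, hx4⟩ := key_eq_reg.1 hx
      obtain ⟨l, hl⟩ := exists_lam hx1 hx4
      obtain ⟨w, hw1, hw2, hw3⟩ := exists_nil (trace_tl (P x)) hx2
      obtain ⟨y, hy1, hy2, hy3⟩ := hev x l w
      refine ⟨y, ?_⟩
      simp only [hy1, hy2, hy3, hl]
      have hx0 : P x ≠ 0 := ne_zero_of_ht hx1
      have hD : 0 < Dz k (P x) 1 := Dz_pos (hq x hx0) 1
      have hpow : (0 : ℝ) < (1 + r1 ^ 2) ^ k := by positivity
      have hE : Ez N k (P x) 1 = 1 * Dz k (P x) 1 := by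
        rw [Ez_eq hk hx1, hx3, hNr1, th_one, div_self hpow.ne', div_self (td_pos 1).ne', one_mul]
      have hwtl : tl w = w := by
        rw [tl, ht_of_trace hw1]; simp
      have hddw : dd w = 0 := by
        rw [dd_eq_neg_det_tl, hwtl, hw2, neg_zero]
      rw [hE, h, key_eq_reg]
      refine ⟨ht_GG_ne w hD hx1, ?_, ?_, (sign_ht_GG w hD).trans hx4⟩
      · rw [tl_GG, YY, YB, hwtl, hddw]
        simp only [one_mul, sub_self, zero_mul, zero_smul, zero_add, neg_smul, mul_neg,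
          smul_mul_assoc, mul_smul_comm]
        rw [sandwich hw1 (trace_tl _) hw2]
        intro h9
        rw [neg_eq_zero, smul_smul, smul_smul, smul_eq_zero] at h9
        rcases h9 with h9 | h9
        · rw [mul_eq_zero, mul_eq_zero] at h9
          rcases h9 with (h9 | h9) | h9
          · exact hD.ne' h9
          · exact hD.ne' h9
          · exact hw3 h9
        · apply hw3; rw [h9]; simp
      · rw [rr_GG w hD hx1, hddw, de]; simp
    · -- scalars
      have hr1K : Key.reg r1 s ∈ K := by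
        refine hloc ξ r1 s ?_ hξ
        intro c hc hcc
        by_cases h : c = 0
        · rw [h] at hcc
          rcases lt_or_gt_of_ne hξ0 with h | h
          · rw [min_eq_right h.le, max_eq_left h.le] at hr1
            rcases Set.mem_uIcc.1 hcc with h' | h'
            · linarith [hr1.2, h'.2]
            · linarith [h'.2]
          · rw [min_eq_left h.le, max_eq_right h.le] at hr1
            rcases Set.mem_uIcc.1 hcc with h' | h'
            · linarith [h'.1]
            · linarith [hr1.1, h'.1]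
        · apply hZ c hc h
          have h1 : r1 ∈ Set.uIcc 0 ξ := ⟨hr1.1.le, hr1.2.le⟩
          exact Set.uIcc_subset_uIcc Set.right_mem_uIcc h1 hcc
      obtain ⟨x, hx⟩ := (hK _ (by simp)).1 hr1K
      obtain ⟨hx1, hx2, hx3, hx4⟩ := key_eq_reg.1 hx
      obtain ⟨l, hl⟩ := exists_lam hx1 hx4
      obtain ⟨y, hy1, hy2, hy3⟩ := hev x l 0
      refine ⟨y, ?_⟩
      simp only [hy1, hy2, hy3, hl]
      have hx0 : P x ≠ 0 := ne_zero_of_ht hx1
      have hD : 0 < Dz k (P x) 1 := Dz_pos (hq x hx0) 1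
      have hpow : (0 : ℝ) < (1 + r1 ^ 2) ^ k := by positivity
      have hE : Ez N k (P x) 1 = 1 * Dz k (P x) 1 := by
        rw [Ez_eq hk hx1, hx3, hNr1, th_one, div_self hpow.ne', div_self (td_pos 1).ne', one_mul]
      have htl0 : tl (0 : M2) = 0 := by simp [tl, ht]
      rw [hE, h, key_eq_sc]
      refine ⟨ht_GG_ne 0 hD hx1, ?_, (sign_ht_GG 0 hD).trans hx4⟩
      rw [tl_GG, YY, YB, htl0]
      simp
    · -- old keys
      obtain ⟨x, hx⟩ := (hK κ hκ).1 h
      obtain ⟨y, hy1, hy2, hy3⟩ := hev x 0 0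
      refine ⟨y, ?_⟩
      simp only [hy1, hy2, hy3]
      have hx0 : P x ≠ 0 := fun h' => hκ (by rw [← hx, h', key_zero])
      have hE : Ez N k (P x) ((s : ℝ) * (0 ^ 2 * ht (P x))) = 0 := by
        rw [Ez]; norm_num [th_zero]
      rw [hE, key_GG_zero (Dz_pos (hq x hx0) _), hx]
  · rintro ⟨x, hx⟩
    have hx0 : P x ≠ 0 := by
      intro h
      apply hκ
      rw [← hx]
      simp only [h, GG_zero, key_zero]
    rw [← hx]
    exact main hloc h0 hξ0 hZ hk hN hNZ hout (hq x hx0) (hmemK x hx0) _ _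

end Pool.Agent.K7.H99.MIP
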