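import Pool.Agent.K7.H81.PD.Stm

/-! # Project PD, job CUT (helper99) -/

set_option autoImplicit false

open MeasureTheory Filter Topology
open scoped ContDiff

namespace Pool.Agent.K7.H99.PDCUT

open Pool.Agent.K7.H81.PD

noncomputable def g (s : ℝ) : ℝ := 1 - Real.smoothTransition (s - 1)

theorem g_smooth : ContDiff ℝ ∞ g := by
  unfold g
  exact contDiff_const.sub (Real.smoothTransition.contDiff.comp (contDiff_id.sub contDiff_const))

theorem g_anti : Antitone g := by
  intro a b hab
  unfold g
  have := Real.smoothTransition.monotone (show a - 1 ≤ b - 1 by linarith)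
  linarith

theorem g_nonneg (s : ℝ) : 0 ≤ g s := by
  unfold g
  linarith [Real.smoothTransition.le_one (s - 1)]

theorem g_le_one (s : ℝ) : g s ≤ 1 := by
  unfold g
  linarith [Real.smoothTransition.nonneg (s - 1)]

theorem g_one {s : ℝ} (h : s ≤ 1) : g s = 1 := by
  unfold g
  rw [Real.smoothTransition.zero_of_nonpos (by linarith)]
  ring

theorem g_zero {s : ℝ} (h : 2 ≤ s) : g s = 0 := by
  unfold g
  rw [Real.smoothTransition.one_of_one_le (by linarith)]
  ring

noncomputable def S (t : ℝ) : ℝ := ∫ s in (0 : ℝ)..t, g s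

theorem S_hasDeriv (t : ℝ) : HasDerivAt S (g t) t :=
  intervalIntegral.integral_hasDerivAt_right (g_smooth.continuous.intervalIntegrable _ _)
    (g_smooth.continuous.stronglyMeasurableAtFilter _ _) g_smooth.continuous.continuousAt

theorem S_deriv : deriv S = g := by
  ext t
  exact (S_hasDeriv t).deriv

theorem S_one {t : ℝ} (h : t ≤ 1) : S t = t := by
  unfold S
  have h1 : ∫ s in (0 : ℝ)..t, g s = ∫ _s in (0 : ℝ)..t, (1 : ℝ) := by
    apply intervalIntegral.integral_congr
    intro s hs
    simp only
    apply g_one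
    rw [Set.mem_uIcc] at hs
    rcases hs with h' | h' <;> linarith
  rw [h1]
  simp

theorem S_two {t : ℝ} (h : 2 ≤ t) : S t = S 2 := by
  unfold S
  have h1 : ∫ s in (2 : ℝ)..t, g s = 0 := by
    have : ∫ s in (2 : ℝ)..t, g s = ∫ _s in (2 : ℝ)..t, (0 : ℝ) := by
      apply intervalIntegral.integral_congr
      intro s hs
      simp only
      apply g_zero
      rw [Set.mem_uIcc] at hs
      rcases hs with h' | h' <;> linarith
    rw [this]
    simp
  rw [← intervalIntegral.integral_add_adjacent_intervals (b := 2) (g_smooth.continuous.intervalIntegrable _ _)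
    (g_smooth.continuous.intervalIntegrable _ _), h1, add_zero]

theorem t : StCut := by
  refine ⟨S, ?_, ?_, ?_, fun t h => S_one h, fun t h => S_two h, ?_, ?_⟩
  · rw [contDiff_infty_iff_deriv, S_deriv]
    exact ⟨fun t => (S_hasDeriv t).differentiableAt, g_smooth⟩
  · intro t
    rw [S_deriv]
    exact ⟨g_nonneg t, g_le_one t⟩
  · intro t
    rw [S_deriv]
    exact g_anti.deriv_nonpos
  · have h1 : S 1 = 1 := S_one le_rfl
    have h2 : S 2 = S 1 + ∫ s in (1 : ℝ)..2, g s := by
      unfold S
      rw [intervalIntegral.integral_add_adjacent_intervals (g_smooth.continuous.intervalIntegrable _ _)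
        (g_smooth.continuous.intervalIntegrable _ _)]
    have h3 : 0 ≤ ∫ s in (1 : ℝ)..2, g s :=
      intervalIntegral.integral_nonneg (by norm_num) fun s _ => g_nonneg s
    linarith
  · have h1 : ∫ s in (0 : ℝ)..2, g s ≤ ∫ _s in (0 : ℝ)..2, (1 : ℝ) := by
      apply intervalIntegral.integral_mono_on (by norm_num) (g_smooth.continuous.intervalIntegrable _ _)
        (by simp)
      intro s _
      exact g_le_one s
    unfold S
    simpa using h1

end Pool.Agent.K7.H99.PDCUT
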