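import Pool.Agent.K7.H81.PD.Stm

/-! # Project PD, job IBP (helper99) -/

set_option autoImplicit false

open MeasureTheory Filter Topology
open scoped ContDiff

namespace Pool.Agent.K7.H99.PDIBP

open Pool.Agent.K7.H81.PD

theorem pd_contDiff {N : ℕ} {f : E N → ℝ} (hf : ContDiff ℝ ∞ f) (i : Fin N) : ContDiff ℝ ∞ (pd i f) := by
  have h1 : ContDiff ℝ ∞ (fderiv ℝ f) := hf.fderiv_right (m := ∞) (by simp)
  exact h1.clm_apply contDiff_const

theorem pd_compact {N : ℕ} {f : E N → ℝ} (hf : HasCompactSupport f) (i : Fin N) : HasCompactSupport (pd i f) :=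
  hf.fderiv_apply ℝ _

theorem ibp1 {N : ℕ} {F φ : E N → ℝ} (hF : ContDiff ℝ ∞ F) (hφ : ContDiff ℝ ∞ φ) (hc : HasCompactSupport φ)
    (i : Fin N) : ∫ x, F x * pd i φ x = -∫ x, pd i F x * φ x := by
  have hne : (∞ : WithTop ℕ∞) ≠ 0 := by simp
  apply integral_mul_fderiv_eq_neg_fderiv_mul_of_integrable
  · exact ((pd_contDiff hF i).continuous.mul hφ.continuous).integrable_of_hasCompactSupport hc.mul_left
  · exact (hF.continuous.mul (pd_contDiff hφ i).continuous).integrable_of_hasCompactSupport
      (pd_compact hc i).mul_left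
  · exact (hF.continuous.mul hφ.continuous).integrable_of_hasCompactSupport hc.mul_left
  · exact fun x _ => (hF.differentiable hne) x
  · exact fun x _ => (hφ.differentiable hne) x

theorem pd_zero {N : ℕ} {f : E N → ℝ} {x : E N} (hx : x ∉ tsupport f) (i : Fin N) : pd i f x = 0 := by
  have h : fderiv ℝ f x = 0 := by
    by_contra h
    exact hx (support_fderiv_subset ℝ h)
  unfold pd
  rw [h]
  rfl

theorem pd_tsupport {N : ℕ} {f : E N → ℝ} (i : Fin N) : tsupport (pd i f) ⊆ tsupport f := by
  apply closure_minimal _ (isClosed_tsupport f)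
  intro x hx
  by_contra h
  exact hx (pd_zero h i)

theorem t : StIbp := by
  intro N Ω F φ _ hF hφ
  obtain ⟨hs, hc, hsub⟩ := hφ
  have h1 : ∫ x in Ω, F x * lap φ x = ∫ x, F x * lap φ x := by
    apply setIntegral_eq_integral_of_forall_compl_eq_zero
    intro x hx
    have h0 : lap φ x = 0 := by
      unfold lap
      apply Finset.sum_eq_zero
      intro i _
      exact pd_zero (fun h => hx (hsub (pd_tsupport i h))) i
    rw [h0, mul_zero]
  have h2 : ∫ x in Ω, lap F x * φ x = ∫ x, lap F x * φ x := by
    apply setIntegral_eq_integral_of_forall_compl_eq_zero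
    intro x hx
    have h0 : φ x = 0 := image_eq_zero_of_notMem_tsupport fun h => hx (hsub h)
    rw [h0, mul_zero]
  rw [h1, h2]
  unfold lap
  simp only [Finset.mul_sum, Finset.sum_mul]
  rw [integral_finset_sum, integral_finset_sum]
  · apply Finset.sum_congr rfl
    intro i _
    rw [ibp1 hF (pd_contDiff hs i) (pd_compact hc i) i, ibp1 (pd_contDiff hF i) hs hc i, neg_neg]
  · intro i _
    exact ((pd_contDiff (pd_contDiff hF i) i).continuous.mul hs.continuous).integrable_of_hasCompactSupport
      hc.mul_left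
  · intro i _
    exact (hF.continuous.mul (pd_contDiff (pd_contDiff hs i) i).continuous).integrable_of_hasCompactSupport
      (pd_compact (pd_compact hc i) i).mul_left

end Pool.Agent.K7.H99.PDIBP
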