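import Pool.Agent.K7.H24.PD.Stm

/-! # Project PK24, job LIM (helper99) -/

set_option autoImplicit false

namespace Pool.Agent.K7.H99.PDLIM

open Filter Topology Finset
open Pool.Agent.K7.H24.PD

theorem rho_zero (s : ℕ) : rho s 0 = 0 := by
  classical
  unfold rho
  simp

theorem div_lim {D : ℕ} (hD : 0 < D) : Tendsto (fun n : ℕ => (((n / D : ℕ) : ℝ)) / n) atTop (𝓝 (1 / D)) := by
  have hD' : (0 : ℝ) < D := by exact_mod_cast hD
  have h0 : Tendsto (fun n : ℕ => 1 / (D : ℝ) - (1 : ℝ) / n) atTop (𝓝 (1 / D - 0)) :=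
    tendsto_const_nhds.sub tendsto_one_div_atTop_nhds_zero_nat
  rw [sub_zero] at h0
  refine tendsto_of_tendsto_of_tendsto_of_le_of_le' h0 tendsto_const_nhds ?_ ?_
  · filter_upwards [eventually_gt_atTop 0] with n hn
    have hn' : (0 : ℝ) < n := by exact_mod_cast hn
    have h1 : n < D * (n / D + 1) := by
      have := Nat.lt_mul_div_succ n hD
      simpa using this
    have h2 : (n : ℝ) < D * (((n / D : ℕ) : ℝ) + 1) := by exact_mod_cast h1
    rw [div_sub_div _ _ hD'.ne' hn'.ne', div_le_div_iff₀ (by positivity) hn']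
    nlinarith
  · filter_upwards [eventually_gt_atTop 0] with n hn
    have hn' : (0 : ℝ) < n := by exact_mod_cast hn
    have h1 : ((n / D * D : ℕ) : ℝ) ≤ n := by exact_mod_cast Nat.div_mul_le_self n D
    push_cast at h1
    rw [div_le_div_iff₀ hn' hD']
    linarith

theorem rho_lim (hR : StRough) (s : ℕ) {D : ℕ} (hD : 0 < D) :
    Tendsto (fun n : ℕ => (rho s (n / D) : ℝ) / n) atTop (𝓝 (V s / D)) := by
  have h1 : Tendsto (fun n : ℕ => (rho s (n / D) : ℝ) / ((n / D : ℕ) : ℝ)) atTop (𝓝 (V s)) :=
    (hR s).comp (Nat.tendsto_div_const_atTop hD.ne')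
  have h2 := h1.mul (div_lim hD)
  have e : V s * (1 / (D : ℝ)) = V s / D := by ring
  rw [e] at h2
  refine h2.congr fun n => ?_
  by_cases h : n / D = 0
  · rw [h, rho_zero]; simp
  · have h' : ((n / D : ℕ) : ℝ) ≠ 0 := by exact_mod_cast h
    field_simp

theorem t (hP : StPack) (hR : StRough) : StLim := by
  intro s K K' hs hK hKK
  have hs0 : 0 < s := by omega
  have hK0 : 0 < K := by omega
  have hs' : (0 : ℝ) < s := by exact_mod_cast hs0
  have hK' : (0 : ℝ) < K := by exact_mod_cast hK0
  set F : ℕ → ℝ := fun n => (((rho s (n / s) : ℝ) - rho s (n / (K * s))) +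
    ∑ p ∈ (Icc K' s).filter Nat.Prime,
      th s K K' p * ((rho s (n / (s * p)) : ℝ) - rho s (n / (K * (s * p))))) with hF
  set A : ℝ := (V s / s - V s / ((K * s : ℕ) : ℝ)) + ∑ p ∈ (Icc K' s).filter Nat.Prime,
      th s K K' p * (V s / ((s * p : ℕ) : ℝ) - V s / ((K * (s * p) : ℕ) : ℝ)) with hA
  have hlim : Tendsto (fun n : ℕ => F n / n) atTop (𝓝 A) := by
    have h1 : Tendsto (fun n : ℕ => ((rho s (n / s) : ℝ) / n - (rho s (n / (K * s)) : ℝ) / n) +
        ∑ p ∈ (Icc K' s).filter Nat.Prime,
          th s K K' p * ((rho s (n / (s * p)) : ℝ) / n - (rho s (n / (K * (s * p))) : ℝ) / n)) atTop (𝓝 A) := by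
      refine Tendsto.add ((rho_lim hR s hs0).sub (rho_lim hR s (Nat.mul_pos hK0 hs0))) ?_
      apply tendsto_finset_sum
      intro p hp
      have hp0 : 0 < p := (Finset.mem_filter.1 hp).2.pos
      exact ((rho_lim hR s (Nat.mul_pos hs0 hp0)).sub
        (rho_lim hR s (Nat.mul_pos hK0 (Nat.mul_pos hs0 hp0)))).const_mul _
    refine h1.congr fun n => ?_
    rw [hF]
    simp only
    rw [add_div, sub_div, Finset.sum_div]
    congr 1
    apply Finset.sum_congr rfl
    intro p _
    rw [mul_div_assoc, sub_div]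
  have hlim2 : Tendsto (fun n : ℕ => 1 - F n / n) atTop (𝓝 (1 - A)) := hlim.const_sub 1
  have hAe : 1 - A = 1 - 1 / s * (1 - 1 / (K : ℝ)) * V s *
    (1 + (1 - Real.log K / Real.log K') *
      ∑ p ∈ (Icc K' s).filter Nat.Prime, Real.log p / (p * (Real.log s + Real.log p))) := by
    have e1 : ∑ p ∈ (Icc K' s).filter Nat.Prime,
        th s K K' p * (V s / ((s * p : ℕ) : ℝ) - V s / ((K * (s * p) : ℕ) : ℝ)) =
        1 / s * (1 - 1 / (K : ℝ)) * V s * ((1 - Real.log K / Real.log K') *
      ∑ p ∈ (Icc K' s).filter Nat.Prime, Real.log p / (p * (Real.log s + Real.log p))) := by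
      rw [Finset.mul_sum, Finset.mul_sum]
      apply Finset.sum_congr rfl
      intro p hp
      have hp0 : 0 < p := (Finset.mem_filter.1 hp).2.pos
      have hp' : (0 : ℝ) < p := by exact_mod_cast hp0
      have hl : 0 < Real.log s + Real.log p := by
        have h1 : 0 < Real.log s := Real.log_pos (by exact_mod_cast (by omega : 1 < s))
        have h2 : 0 ≤ Real.log p := Real.log_natCast_nonneg p
        linarith
      unfold th
      push_cast
      generalize Real.log K / Real.log K' = w
      have hl' := hl.ne'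
      field_simp
    rw [hA, e1]
    push_cast
    field_simp
  rw [← hAe]
  unfold lam
  calc limsup (fun n : ℕ => (pmax s n : ℝ) / n) atTop ≤ limsup (fun n : ℕ => 1 - F n / n) atTop := by
        apply Filter.limsup_le_limsup
        · filter_upwards [eventually_gt_atTop 0] with n hn
          have hn' : (0 : ℝ) < n := by exact_mod_cast hn
          have h := hP s n K K' hs hK hKK
          rw [div_le_iff₀ hn', sub_mul, one_mul, div_mul_cancel₀ _ hn'.ne']
          exact h
        · apply Filter.IsBoundedUnder.isCoboundedUnder_le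
          refine ⟨0, ?_⟩
          rw [Filter.eventually_map]
          filter_upwards with n
          show (0 : ℝ) ≤ (pmax s n : ℝ) / n
          positivity
        · exact hlim2.isBoundedUnder_le
    _ = 1 - A := hlim2.limsup_eq

end Pool.Agent.K7.H99.PDLIM
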