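import Pool.Agent.K7.H81.RT.Stm

/-!
# Project RT, job DENS (helper99)
-/

set_option autoImplicit false

namespace Pool.Agent.K7.H99.RT

open Pool.Agent.K7.H81.RT

theorem dens : StDens := by
  intro c θ y w η L hc hB hη hL h
  by_contra hcon
  push Not at hcon
  have hL0 : (0 : ℝ) < L + 1 := by positivity
  obtain ⟨r, hr, hrL⟩ := Real.exists_rat_abs_sub_le_and_den_le θ (n := L) hL
  set b : ℕ := r.den with hb
  have hb1 : 1 ≤ b := r.pos
  have hb0 : (0 : ℝ) < b := by exact_mod_cast hb1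
  have hrb : (r : ℝ) * b = r.num := by
    have := Rat.mul_den_eq_num r
    exact_mod_cast congrArg (fun q : ℚ => (q : ℝ)) this
  -- `(L + 1) / b ≤ 1 / c`
  have h1 : |(b : ℝ) * θ - r.num| ≤ 1 / (L + 1) := by
    have e : (b : ℝ) * θ - r.num = b * (θ - r) := by rw [← hrb]; ring
    rw [e, abs_mul, abs_of_pos hb0]
    calc (b : ℝ) * |θ - r| ≤ b * (1 / ((L + 1) * b)) := by gcongr
      _ = 1 / (L + 1) := by field_simp
  have h2 : c / b ≤ 1 / (L + 1) := (hB b hb1 r.num).trans h1
  have h3 : c * (L + 1) ≤ b := by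
    rw [div_le_div_iff₀ hb0 hL0] at h2
    linarith
  have h4 : 1 / (b : ℝ) ≤ 1 / (c * (L + 1)) := one_div_le_one_div_of_le (by positivity) h3
  have h5 : 1 / (b : ℝ) + 2 / (L + 1) ≤ η := by
    have e : 1 / (c * (L + 1)) + 2 / ((L : ℝ) + 1) = (1 / c + 2) / (L + 1) := by
      field_simp
    have : (1 / c + 2) / ((L : ℝ) + 1) ≤ η := by
      rw [div_le_iff₀ hL0]; linarith
    linarith
  set w' : ℝ := w + 1 / (L + 1) with hw'
  set t : ℤ := ⌈(b : ℝ) * (w' - y)⌉ with ht
  have ht1 : (b : ℝ) * (w' - y) ≤ t := Int.le_ceil _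
  have ht2 : (t : ℝ) < b * (w' - y) + 1 := Int.ceil_lt_add_one _
  -- the residue
  have hcop : IsCoprime r.num (b : ℤ) := by
    rw [Int.isCoprime_iff_gcd_eq_one]
    have := r.reduced
    simpa [Int.gcd, Nat.Coprime] using this
  obtain ⟨u, v, huv⟩ := hcop
  set k0 : ℤ := (u * t) % b with hk0
  have hbz : (0 : ℤ) < b := by exact_mod_cast hb1
  have hk00 : 0 ≤ k0 := Int.emod_nonneg _ hbz.ne'
  have hk0b : k0 < b := Int.emod_lt_of_pos _ hbz
  obtain ⟨p, hp⟩ : ∃ p : ℤ, k0 * r.num = t + p * b := by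
    have e := Int.emod_add_mul_ediv (u * t) b
    refine ⟨-(t * v) - (u * t / b) * r.num, ?_⟩
    have e2 : k0 = u * t - b * (u * t / b) := by rw [hk0]; linarith
    rw [e2]
    linear_combination t * huv
  set k : ℕ := k0.toNat with hk
  have hkz : (k : ℤ) = k0 := Int.toNat_of_nonneg hk00
  have hkb : k < b := by have := hkz; omega
  have hkL : k < L := lt_of_lt_of_le hkb hrL
  have hkr : (k : ℝ) * r.num = t + p * b := by
    have : (k : ℤ) * r.num = t + p * b := by rw [hkz]; exact hp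
    exact_mod_cast this
  have hkr2 : (k : ℝ) * r = t / b + p := by
    rw [← hrb] at hkr
    field_simp
    linear_combination hkr
  have e1 : y + k * θ - p = y + t / b + k * (θ - r) := by
    linear_combination hkr2
  have h6 : |(k : ℝ) * (θ - r)| < 1 / (L + 1) := by
    rw [abs_mul, abs_of_nonneg (by positivity)]
    have hkb' : (k : ℝ) < b := by exact_mod_cast hkb
    calc (k : ℝ) * |θ - r| ≤ k * (1 / ((L + 1) * b)) := by gcongr
      _ < b * (1 / ((L + 1) * b)) := by
        apply mul_lt_mul_of_pos_right hkb'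
        positivity
      _ = 1 / (L + 1) := by field_simp
  obtain ⟨h7, h8⟩ := abs_lt.1 h6
  have h9 : w' - y ≤ t / b := by rw [le_div_iff₀ hb0]; linarith
  have h10 : (t : ℝ) / b < w' - y + 1 / b := by
    rw [div_lt_iff₀ hb0]
    have : (w' - y + 1 / b) * b = b * (w' - y) + 1 := by field_simp
    rw [this]; exact ht2
  have h11 : (2 : ℝ) / (L + 1) = 1 / (L + 1) + 1 / (L + 1) := by ring
  apply h k hkL p
  rw [e1]
  constructor
  · linarith
  · linarith

end Pool.Agent.K7.H99.RT
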