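import Pool.Agent.K7.H16.SG.Stm

/-! # Project SG, job REC2 (helper99, second copy) -/

set_option autoImplicit false

open Finset

namespace Pool.Agent.K7.H99.SGREC2

open Pool.Agent.K7.H16.SG

/-- if `f w ≠ 0` and `M'` is the largest entry, then `w` ends with `M'` -/
theorem last_of {hF0 : StF0} {w : List ℕ} (hw : w.Nodup) (hf : f w ≠ 0) {M' : ℕ} (hM : M' ∈ w)
    (hmax : ∀ a ∈ w, a ≤ M') : ∃ τ : List ℕ, w = τ ++ [M'] := by
  have hne : w ≠ [] := by rintro rfl; simp at hM
  obtain ⟨τ, m, rfl, hτ⟩ := hF0 w hw hf hne
  have h1 : m ≤ M' := hmax m (by simp)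
  have h2 : M' = m := by
    rw [List.mem_append, List.mem_singleton] at hM
    rcases hM with h | h
    · exact absurd (hτ M' h) (by omega)
    · exact h
  exact ⟨τ, by rw [h2]⟩

theorem t (hF1 : StF1) (hF0 : StF0) (hW : StW) (hS : StSpl) : StRec2 := by
  classical
  intro A M' M hA hM
  obtain ⟨hW1, -, hf1, hD1⟩ := hW
  have hM'A : M' ∉ A := fun h => lt_irrefl _ (hA _ h)
  set A' := insert M' A with hA'
  have hcard : A'.card = A.card + 1 := Finset.card_insert_of_notMem hM'A
  have hA'M : ∀ a ∈ A', a < M := by
    intro a ha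
    rcases Finset.mem_insert.1 ha with rfl | h
    · exact hM
    · exact (hA a h).trans hM
  have hMA' : M ∉ A' := fun h => lt_irrefl _ (hA'M _ h)
  -- words on `A'`
  have hlen : ∀ τ ∈ words A', τ.length = A.card + 1 := by
    intro τ hτ
    obtain ⟨h1, h2⟩ := (hW1 A' τ).1 hτ
    rw [← hcard, ← h2, List.toFinset_card_of_nodup h1]
  -- step 1
  have step1 : D (insert M A') = ∑ τ ∈ words A', f (τ ++ [M]) ^ 2 := by
    unfold D
    symm
    apply Finset.sum_of_injOn (fun τ : List ℕ => τ ++ [M])
    · intro a _ b _ hab
      exact List.append_cancel_right hab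
    · intro τ hτ
      obtain ⟨h1, h2⟩ := (hW1 A' τ).1 hτ
      rw [Finset.mem_coe, hW1]
      have hMτ : M ∉ τ := fun h => hMA' (by rw [← h2]; exact List.mem_toFinset.2 h)
      constructor
      · rw [List.nodup_append]
        refine ⟨h1, by simp, ?_⟩
        intro a ha b hb
        rw [List.mem_singleton] at hb
        rintro rfl
        exact hMτ (hb ▸ ha)
      · rw [List.toFinset_append, h2]
        simp [Finset.union_comm]
    · intro w hw hnot
      obtain ⟨h1, h2⟩ := (hW1 _ w).1 hw
      by_contra hne
      have hfw : f w ≠ 0 := fun h => hne (by rw [h]; rfl)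
      have hMw : M ∈ w := by
        rw [← List.mem_toFinset, h2]
        exact Finset.mem_insert_self _ _
      have hmax : ∀ a ∈ w, a ≤ M := by
        intro a ha
        rw [← List.mem_toFinset, h2, Finset.mem_insert] at ha
        rcases ha with rfl | h
        · exact le_rfl
        · exact (hA'M a h).le
      obtain ⟨τ, rfl⟩ := last_of (hF0 := hF0) h1 hfw hMw hmax
      apply hnot
      refine ⟨τ, ?_, rfl⟩
      rw [Finset.mem_coe, hW1]
      rw [List.nodup_append] at h1
      refine ⟨h1.1, ?_⟩
      have hMτ : M ∉ τ := fun h => h1.2.2 M h M (by simp) rfl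
      rw [List.toFinset_append] at h2
      ext a
      constructor
      · intro ha
        have : a ∈ insert M A' := by rw [← h2]; exact Finset.mem_union_left _ ha
        rcases Finset.mem_insert.1 this with rfl | h
        · exact absurd (List.mem_toFinset.1 ha) hMτ
        · exact h
      · intro ha
        have : a ∈ τ.toFinset ∪ [M].toFinset := by rw [h2]; exact Finset.mem_insert_of_mem ha
        rcases Finset.mem_union.1 this with h | h
        · exact h
        · simp at h
          subst h
          exact absurd ha hMA'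
    · intro τ _
      rfl
  -- step 2: the pointwise bound
  set g : List ℕ → ℕ := fun w => if M' ∈ w then f w ^ 2 else 0 with hg
  have step2 : ∀ τ ∈ words A', f (τ ++ [M]) ^ 2 ≤
      ∑ i ∈ range (A.card + 1), g (τ.take i) * f (τ.drop i) ^ 2 +
        (A.card + 2) * (∑ i ∈ range (A.card + 1), f (τ.take i) ^ 2 * g (τ.drop i) + f τ ^ 2) := by
    intro τ hτ
    have hl := hlen τ hτ
    obtain ⟨h1, h2⟩ := (hW1 A' τ).1 hτ
    have hmem : ∀ a ∈ τ, a ∈ A' := fun a ha => by rw [← h2]; exact List.mem_toFinset.2 ha
    have hmax : ∀ a ∈ τ, a ≤ M' := by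
      intro a ha
      rcases Finset.mem_insert.1 (hmem a ha) with rfl | h
      · exact le_rfl
      · exact (hA a h).le
    have hM'τ : M' ∈ τ := by
      rw [← List.mem_toFinset, h2]
      exact Finset.mem_insert_self _ _
    rw [hF1 τ M h1 (fun a ha => hA'M a (hmem a ha)), hl]
    by_cases hend : ∃ τ' : List ℕ, τ = τ' ++ [M']
    · -- Cauchy
      obtain ⟨τ', rfl⟩ := hend
      have hl' : τ'.length = A.card := by simpa using hl
      have hc := sq_sum_le_card_mul_sum_sq (s := range (A.card + 1 + 1))
        (f := fun i => f ((τ' ++ [M']).take i) * f ((τ' ++ [M']).drop i))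
      rw [Finset.card_range] at hc
      refine hc.trans (le_trans ?_ (Nat.le_add_left _ _))
      apply Nat.mul_le_mul_left
      rw [Finset.sum_range_succ]
      apply Nat.add_le_add
      · apply Finset.sum_le_sum
        intro i hi
        rw [Finset.mem_range] at hi
        have hin : M' ∈ (τ' ++ [M']).drop i := by
          rw [List.drop_append_of_le_length (by omega)]
          simp
        simp only [hg, hin, if_true, mul_pow]
        exact le_rfl
      · have e1 : (τ' ++ [M']).take (A.card + 1) = τ' ++ [M'] := List.take_of_length_le (by simp [hl'])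
        have e2 : (τ' ++ [M']).drop (A.card + 1) = [] := List.drop_eq_nil_of_le (by simp [hl'])
        rw [e1, e2, hf1, mul_one]
    · -- only one term
      refine le_trans ?_ (Nat.le_add_right _ _)
      have hx : ∀ i ∈ range (A.card + 1 + 1), f (τ.take i) * f (τ.drop i) ≠ 0 →
          i = τ.idxOf M' + 1 ∧ i < A.card + 1 ∧ M' ∈ τ.take i := by
        intro i hi hne
        have hg1 : f (τ.take i) ≠ 0 := left_ne_zero_of_mul hne
        have hg2 : f (τ.drop i) ≠ 0 := right_ne_zero_of_mul hne
        have hnd1 : (τ.take i).Nodup := h1.sublist (List.take_sublist i τ)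
        have hnd2 : (τ.drop i).Nodup := h1.sublist (List.drop_sublist i τ)
        have hsplit : τ.take i ++ τ.drop i = τ := List.take_append_drop i τ
        have hnot : M' ∉ τ.drop i := by
          intro h
          obtain ⟨σ, hσ⟩ := last_of (hF0 := hF0) hnd2 hg2 h (fun a ha => hmax a (List.mem_of_mem_drop ha))
          exact hend ⟨τ.take i ++ σ, by rw [List.append_assoc, ← hσ, hsplit]⟩
        have hin : M' ∈ τ.take i := by
          have h5 : M' ∈ τ.take i ++ τ.drop i := by rw [hsplit]; exact hM'τ
          rcases List.mem_append.1 h5 with h | h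
          · exact h
          · exact absurd h hnot
        obtain ⟨σ, hσ⟩ := last_of (hF0 := hF0) hnd1 hg1 hin (fun a ha => hmax a (List.mem_of_mem_take ha))
        have hlt : i < A.card + 1 := by
          by_contra h
          have h6 : τ.take i = τ := List.take_of_length_le (by omega)
          exact hend ⟨σ, by rw [← hσ, h6]⟩
        have hlen_i : (τ.take i).length = i := by rw [List.length_take]; omega
        have hσl : σ.length + 1 = i := by rw [← hlen_i, hσ]; simp
        have hσn : M' ∉ σ := by
          rw [hσ, List.nodup_append] at hnd1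
          intro h
          exact hnd1.2.2 M' h M' (by simp) rfl
        have hidx : τ.idxOf M' = σ.length := by
          rw [← hsplit, hσ, List.append_assoc, List.idxOf_append_of_notMem hσn]
          simp
        exact ⟨by omega, hlt, hin⟩
      set i₀ := τ.idxOf M' + 1 with hi₀
      have hsum : ∑ i ∈ range (A.card + 1 + 1), f (τ.take i) * f (τ.drop i) =
          if i₀ ∈ range (A.card + 1 + 1) then f (τ.take i₀) * f (τ.drop i₀) else 0 := by
        rw [← Finset.sum_ite_eq' (range (A.card + 1 + 1)) i₀ (fun i => f (τ.take i) * f (τ.drop i))]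
        apply Finset.sum_congr rfl
        intro i hi
        split_ifs with h
        · rfl
        · by_contra hne
          exact h (hx i hi hne).1
      rw [hsum]
      split_ifs with h
      · by_cases hne : f (τ.take i₀) * f (τ.drop i₀) = 0
        · rw [hne]; simp
        · obtain ⟨-, h7, h8⟩ := hx i₀ h hne
          refine le_trans (le_of_eq ?_) (Finset.single_le_sum (f := fun i => g (τ.take i) * f (τ.drop i) ^ 2)
            (fun i _ => Nat.zero_le _) (Finset.mem_range.2 h7))
          simp only [hg, h8, if_true, mul_pow]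
      · simp
  -- step 3: summation
  have hfull : ∀ F : Finset ℕ → ℕ, ∑ i ∈ range (A.card + 1), ∑ B ∈ powersetCard i A', F B + F A' =
      ∑ B ∈ A.powerset, F B + ∑ B ∈ A.powerset, F (insert M' B) := by
    intro F
    rw [← Finset.sum_powerset_insert hM'A, Finset.sum_powerset (s := insert M' A), ← hA', hcard,
      Finset.sum_range_succ _ (A.card + 1), ← hcard, Finset.powersetCard_self, Finset.sum_singleton]
  have hgs : ∀ B : Finset ℕ, ∑ u ∈ words B, g u = if M' ∈ B then D B else 0 := by
    intro B
    unfold D
    split_ifs with h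
    · apply Finset.sum_congr rfl
      intro u hu
      obtain ⟨-, h3⟩ := (hW1 B u).1 hu
      have : M' ∈ u := by rw [← List.mem_toFinset, h3]; exact h
      simp only [hg, this, if_true]
    · apply Finset.sum_eq_zero
      intro u hu
      obtain ⟨-, h3⟩ := (hW1 B u).1 hu
      have : M' ∉ u := by rw [← List.mem_toFinset, h3]; exact h
      simp only [hg, this, if_false]
  have s1 : ∑ τ ∈ words A', ∑ i ∈ range (A.card + 1), g (τ.take i) * f (τ.drop i) ^ 2 =
      ∑ B ∈ A.powerset.erase A, D (insert M' B) * D (A \ B) := by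
    rw [Finset.sum_comm]
    have e1 : ∀ i ∈ range (A.card + 1), ∑ τ ∈ words A', g (τ.take i) * f (τ.drop i) ^ 2 =
        ∑ B ∈ powersetCard i A', (if M' ∈ B then D B else 0) * D (A' \ B) := by
      intro i hi
      rw [Finset.mem_range] at hi
      rw [hS A' i g (fun w => f w ^ 2) (by omega)]
      apply Finset.sum_congr rfl
      intro B _
      rw [hgs B]
      rfl
    rw [Finset.sum_congr rfl e1]
    have h := hfull (fun B => (if M' ∈ B then D B else 0) * D (A' \ B))
    have h0 : (if M' ∈ A' then D A' else 0) * D (A' \ A') = D (insert M' A) * D (A \ A) := by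
      rw [if_pos (Finset.mem_insert_self _ _), Finset.sdiff_self, Finset.sdiff_self]
    have h3 : ∑ B ∈ A.powerset, (if M' ∈ B then D B else 0) * D (A' \ B) = 0 := by
      apply Finset.sum_eq_zero
      intro B hB
      rw [if_neg (fun h => hM'A (Finset.mem_powerset.1 hB h)), zero_mul]
    have h4 : ∑ B ∈ A.powerset, (if M' ∈ insert M' B then D (insert M' B) else 0) * D (A' \ insert M' B) =
        ∑ B ∈ A.powerset, D (insert M' B) * D (A \ B) := by
      apply Finset.sum_congr rfl
      intro B hB
      rw [if_pos (Finset.mem_insert_self _ _)]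
      congr 2
      rw [hA', Finset.insert_sdiff_insert, Finset.sdiff_insert, Finset.erase_eq_of_notMem]
      exact fun h => hM'A (Finset.mem_sdiff.1 h).1
    rw [h0, h3, h4, zero_add, ← Finset.sum_erase_add _ _ (Finset.mem_powerset_self A)] at h
    exact Nat.add_right_cancel h
  have s2 : ∑ τ ∈ words A', ∑ i ∈ range (A.card + 1), f (τ.take i) ^ 2 * g (τ.drop i) =
      ∑ B ∈ A.powerset, D B * D (insert M' (A \ B)) := by
    rw [Finset.sum_comm]
    have e1 : ∀ i ∈ range (A.card + 1), ∑ τ ∈ words A', f (τ.take i) ^ 2 * g (τ.drop i) =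
        ∑ B ∈ powersetCard i A', D B * (if M' ∈ A' \ B then D (A' \ B) else 0) := by
      intro i hi
      rw [Finset.mem_range] at hi
      rw [hS A' i (fun w => f w ^ 2) g (by omega)]
      apply Finset.sum_congr rfl
      intro B _
      rw [hgs (A' \ B)]
      rfl
    rw [Finset.sum_congr rfl e1]
    have h := hfull (fun B => D B * (if M' ∈ A' \ B then D (A' \ B) else 0))
    have h0 : D A' * (if M' ∈ A' \ A' then D (A' \ A') else 0) = 0 := by
      rw [Finset.sdiff_self, if_neg (Finset.notMem_empty _), mul_zero]
    have h3 : ∑ B ∈ A.powerset, D (insert M' B) *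
        (if M' ∈ A' \ insert M' B then D (A' \ insert M' B) else 0) = 0 := by
      apply Finset.sum_eq_zero
      intro B hB
      rw [if_neg (fun h => (Finset.mem_sdiff.1 h).2 (Finset.mem_insert_self _ _)), mul_zero]
    have h4 : ∑ B ∈ A.powerset, D B * (if M' ∈ A' \ B then D (A' \ B) else 0) =
        ∑ B ∈ A.powerset, D B * D (insert M' (A \ B)) := by
      apply Finset.sum_congr rfl
      intro B hB
      have hMB : M' ∉ B := fun h => hM'A (Finset.mem_powerset.1 hB h)
      rw [if_pos (Finset.mem_sdiff.2 ⟨Finset.mem_insert_self _ _, hMB⟩), hA',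
        Finset.insert_sdiff_of_notMem _ hMB]
    rw [h0, h3, h4, add_zero, add_zero] at h
    exact h
  calc D (insert M A') = ∑ τ ∈ words A', f (τ ++ [M]) ^ 2 := step1
    _ ≤ ∑ τ ∈ words A', (∑ i ∈ range (A.card + 1), g (τ.take i) * f (τ.drop i) ^ 2 +
        (A.card + 2) * (∑ i ∈ range (A.card + 1), f (τ.take i) ^ 2 * g (τ.drop i) + f τ ^ 2)) :=
        Finset.sum_le_sum step2
    _ = _ := by
      rw [Finset.sum_add_distrib, s1, ← Finset.mul_sum, Finset.sum_add_distrib, s2]
      rfl

end Pool.Agent.K7.H99.SGREC2
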